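import Pool.Agent.W_a4f561_P73.PDef
import Pool.Agent.W_a4f561_E.Rec25

/-!
MP_a4f561_co, polylog (helper1's text, section 3 (b)): areas (pockets) of a phase for every barrier. The phase is the part
of the route of `z` (in the closed set `σ.S`) up to the time `tl`. Self-contained geometry: (P0), (P1'), never enter, stay.
-/

set_option autoImplicit false

namespace Pool.Agent.W_a4f561_P25

open Pool.Agent.W_a4f561_h26
open Pool.Agent.W_a4f561_P73
open Pool.Agent.W_a4f561_E.Pk25 hiding Rec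

variable {V : Type} {G : Bars V}

/-- The phase of `z` up to the time `tl` touches `y` from below at the time `τ`. -/
def Tc (G : Bars V) (π : V → V) (z : V) (tl : ℕ) (y : V) (τ : ℕ) : Prop :=
  G.t z < τ ∧ τ ≤ tl ∧ G.ub (host G π z τ) τ = y ∧ G.t (host G π z τ) < G.t y

/-- `u` is in the area between two touches `a ≤ c` of the barrier `y` (above the phase). -/
def Ar (G : Bars V) (π : V → V) (z : V) (tl : ℕ) (y : V) (a c : ℕ) (u : V) : Prop :=
  ¬ Orb π z u ∧ Tc G π z tl y a ∧ Tc G π z tl y c ∧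
    ∃ τ, a ≤ τ ∧ τ ≤ c ∧ G.al u τ ∧ G.r (host G π z τ) < G.r u ∧ G.r u < G.r y

/-- `u` is in an area above the phase. -/
def ArD (G : Bars V) (π : V → V) (z : V) (tl : ℕ) (u : V) : Prop := ∃ y a c, Ar G π z tl y a c u

/-- `u` is in an area above or below the phase. -/
def Area (G : Bars V) (π : V → V) (z : V) (tl : ℕ) (u : V) : Prop := ArD G π z tl u ∨ ArD G.mir π z tl u

theorem host_mir (π : V → V) (z : V) (τ : ℕ) : host G.mir π z τ = host G π z τ := rfl

section basic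

variable {π : V → V} (hπ : Ch G π) {z : V} {tl : ℕ} (hN : tl ≤ G.N)

include hπ hN

theorem Tc.up {y : V} {c : ℕ} (h : Tc G π z tl y c) : @Up V G.ord G.b G.t c (host G π z c) y := by
  have hc : c ≤ G.N := h.2.1.trans hN
  refine G.up_of_ub ?_ hc (host_al25 hπ hc ((G.bt z).trans h.1.le)) h.2.2.1
  intro e
  have h1 := h.2.2.1
  have h2 := h.2.2.2
  rw [e, Pool.Agent.W_a4f561_R25.ub_top] at h1
  rw [e, ← h1] at h2
  exact lt_irrefl _ h2

theorem Tc.hp {y y' : V} {a c : ℕ} (h : Tc G π z tl y a) (h' : Tc G π z tl y' c) :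
    @Hp V G.ord G.b G.t (host G π z) a c := host_hp hπ ((G.bt z).trans h.1.le) (h'.2.1.trans hN)

/-- The host path is a record in the sense of `Pk25`. -/
theorem Tc.rec {y : V} {a c : ℕ} (h : Tc G π z tl y a) (h' : Tc G π z tl y c) (hac : a < c) :
    @Pool.Agent.W_a4f561_E.Pk25.Rec V G.ord G.b G.t (host G π z) y a c :=
  let _ := G.ord
  ⟨hac, h.hp hπ hN h', h.up hπ hN, h'.up hπ hN⟩

theorem Tc.y_t {y : V} {c : ℕ} (h : Tc G π z tl y c) : c < G.t y := by
  have hc : c ≤ G.N := h.2.1.trans hN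
  exact (host_al25 hπ hc ((G.bt z).trans h.1.le)).2.trans_lt h.2.2.2

/-- In `[a, c]` the phase is below the barrier. -/
theorem Tc.lt {y : V} {a c τ : ℕ} (h : Tc G π z tl y a) (h' : Tc G π z tl y c) (h1 : a ≤ τ) (h2 : τ ≤ c) :
    G.r (host G π z τ) < G.r y := by
  let _ := G.ord
  have hy : ∀ s, a ≤ s → s ≤ c → host G π z s ≠ y := by
    intro s h3 h4 h5
    have h6 := (h.hp hπ hN h').sit h3 h4 le_rfl (by rw [h5]; exact (h'.y_t hπ hN).le)
    rw [h5] at h6
    have h7 := h'.2.2.2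
    rw [h6] at h7
    exact lt_irrefl _ h7
  exact (side_iff G.t_inj (h.hp hπ hN h') (h.up hπ hN).ay (h'.up hπ hN).ay hy h1 h2 (h1.trans h2) le_rfl).2
    (h'.up hπ hN).lt

omit hN in
theorem notOn {u : V} {τ : ℕ} (hu : ¬ Orb π z u) (h2 : τ ≤ G.N) : host G π z τ ≠ u := by
  intro e
  apply hu
  rw [← e]
  exact host_orb25 hπ z h2

/-- Data of a vertex in an area: (P0) born and dead inside, strictly between at all times. -/
theorem Ar.p0 {y : V} {a c : ℕ} {u : V} (h : Ar G π z tl y a c u) :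
    a < c ∧ a < G.b u ∧ G.t u < c ∧ ∀ τ, G.al u τ → G.r (host G π z τ) < G.r u ∧ G.r u < G.r y := by
  let _ := G.ord
  obtain ⟨h0, ha, hc, τ, h1, h2, h3, h4, h5⟩ := h
  have hcN : c ≤ G.N := hc.2.1.trans hN
  have hac : a < c := by
    rcases (h1.trans h2).eq_or_lt with h6 | h6
    · exfalso
      have e : τ = a := by omega
      rw [e] at h3 h4
      exact (ha.up hπ hN).no u h3 h4 h5
    · exact h6
  have hr := ha.rec hπ hN hc hac
  obtain ⟨k1, k2⟩ := Pool.Agent.W_a4f561_E.Pk25.p0_33 G.t_inj hr h1 h2 h3 ⟨h4, h5⟩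
    (fun s _ h7 => notOn hπ h0 (h7.trans hcN))
  refine ⟨hac, k1, k2, fun s hs => ⟨?_, h5⟩⟩
  have hs1 : a < s := k1.trans_le hs.1
  have hs2 : s < c := hs.2.trans_lt k2
  have hU : ∀ s1 s2, G.al u s1 → G.al u s2 → s1 ≤ s2 → Hp G.b G.t (fun _ => u) s1 s2 := fun s1 s2 l1 l2 _ =>
    Hp.const l1 l2
  rcases le_total s τ with h6 | h6
  · exact (keep_iff G.t_inj (hU s τ hs h3 h6) (hr.hp.mono hs1.le h2)
      (fun σ l1 l2 => notOn hπ h0 ((l2.trans h2).trans hcN)) le_rfl h6 h6 le_rfl).2 h4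
  · exact (keep_iff G.t_inj (hU τ s h3 hs h6) (hr.hp.mono h1 hs2.le)
      (fun σ l1 l2 => notOn hπ h0 ((l2.trans hs2.le).trans hcN)) le_rfl h6 h6 le_rfl).1 h4

/-- A vertex strictly between the phase and the barrier is in the area or a vertex of the phase which is over at `tl`. -/
theorem between {y : V} {a c τ : ℕ} {u : V} (ha : Tc G π z tl y a) (hc : Tc G π z tl y c) (h1 : a ≤ τ) (h2 : τ ≤ c)
    (hal : G.al u τ) (h3 : G.r (host G π z τ) < G.r u) (h4 : G.r u < G.r y) :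
    Ar G π z tl y a c u ∨ (Orb π z u ∧ G.t u ≤ G.t (host G π z c)) := by
  let _ := G.ord
  by_cases h0 : Orb π z u
  · right
    refine ⟨h0, ?_⟩
    have hcN : c ≤ G.N := hc.2.1.trans hN
    by_contra hcon
    rw [not_le] at hcon
    have htc : c ≤ G.t (host G π z c) := (host_al25 hπ hcN ((G.bt z).trans hc.1.le)).2
    have hU : Hp G.b G.t (fun _ => u) τ c := Hp.const hal ⟨hal.1.trans h2, by omega⟩
    have hne : ∀ s, τ ≤ s → s ≤ c → host G π z s ≠ u := by
      intro s l1 l2 l3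
      have l4 := (ha.hp hπ hN hc).sit (h1.trans l1) l2 le_rfl (by rw [l3]; omega)
      rw [l3] at l4
      rw [l4] at hcon
      exact lt_irrefl _ hcon
    have h5 := keep_lt G.t_inj hU ((ha.hp hπ hN hc).mono h1 le_rfl) hne h3 c h2 le_rfl
    exact (hc.up hπ hN).no u (hU.al c h2 le_rfl) h5 h4
  · exact Or.inl ⟨h0, ha, hc, τ, h1, h2, hal, h3, h4⟩

/-- (P1'): a vertex of a set of routes whose roots do not live inside `(T0, T1)` is not in an area. -/
theorem p1root {y : V} {a c : ℕ} {u r : V} {T0 T1 : ℕ} (h : Ar G π z tl y a c u) (hr : Orb π r u)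
    (h0 : T0 ≤ G.t z) (h1 : tl ≤ T1) (hroot : ¬ (T0 < G.b r ∧ G.t r < T1)) : False := by
  let _ := G.ord
  obtain ⟨hac, k1, k2, k3⟩ := h.p0 hπ hN
  obtain ⟨hO, ha, hc, _⟩ := h
  have hcN : c ≤ G.N := hc.2.1.trans hN
  have huN : G.t u ≤ G.N := k2.le.trans hcN
  have hru : G.t r ≤ G.t u := Orb.t_le hπ hr
  have hh : host G π r (G.t u) = u := host_of_orb hπ hr rfl huN
  have hbr : G.b r ≤ G.t u := (G.bt r).trans hru
  have hR : Hp G.b G.t (host G π r) (G.b r) (G.t u) := host_hp hπ le_rfl huN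
  have hau : a ≤ G.t u := k1.le.trans (G.bt u)
  obtain ⟨m1, -⟩ := started G.t_inj (ha.rec hπ hN hc hac) hR hbr hau k2.le (fun s l1 l2 l3 l4 => by
    have l5 := host_host hπ (u := r) l3 huN
    have l6 := host_host hπ (u := z) l3 huN
    rw [← l4, l5, hh] at l6
    exact notOn hπ hO huN l6.symm) (by
    unfold Ins
    rw [hh]
    exact k3 _ (G.al_t u))
  exact hroot ⟨(h0.trans_lt ha.1).trans m1, (hru.trans_lt k2).trans_le (hc.2.1.trans h1)⟩

/-- Never enter, one step: a predecessor of an area vertex (not on the route of `z`) is in the same area. -/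
theorem Ar.back {y : V} {a c : ℕ} {v w : V} (h : Ar G π z tl y a c v) {ρ : V → V} (hρ : Ch G ρ) (hw : G.inn w)
    (hwO : ¬ Orb π z w) (hs : ρ w = v) : Ar G π z tl y a c w := by
  let _ := G.ord
  obtain ⟨hac, k1, k2, k3⟩ := h.p0 hπ hN
  obtain ⟨hO, ha, hc, _⟩ := h
  have hcN : c ≤ G.N := hc.2.1.trans hN
  have hwt : G.t w < G.t v := by rw [← hs]; exact hρ.t_lt hw
  have hbv : G.b v ≤ G.t w := by rw [← hs]; exact hρ.b_le hw
  have hvw : G.al v (G.t w) := ⟨hbv, hwt.le⟩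
  obtain ⟨l1, l2⟩ := k3 _ hvw
  have ht1 : a ≤ G.t w := k1.le.trans hbv
  have ht2 : G.t w ≤ c := (hwt.trans k2).le
  have hhal := host_al25 hπ (ht2.trans hcN) (((G.bt z).trans ha.1.le).trans ht1)
  have hyal : G.al y (G.t w) := ⟨(ha.up hπ hN).ay.1.trans ht1, ht2.trans (hc.y_t hπ hN).le⟩
  refine ⟨hwO, ha, hc, G.t w, ht1, ht2, G.al_t w, ?_, ?_⟩
  · rcases hρ.2.2 w hw with h4 | h4
    · -- `v = lo w`
      have h5 := (G.up_lo hw).lt
      rw [← h4, hs] at h5
      exact l1.trans h5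
    · have h5 := G.up_up hw
      rw [← h4, hs] at h5
      refine lt_of_le_of_ne ?_ ?_
      · by_contra hcon
        rw [not_le] at hcon
        exact h5.no _ hhal hcon l1
      · intro e
        exact notOn hπ hwO (ht2.trans hcN) (G.r_inj e)
  · rcases hρ.2.2 w hw with h4 | h4
    · have h5 := G.up_lo hw
      rw [← h4, hs] at h5
      refine lt_of_le_of_ne ?_ ?_
      · by_contra hcon
        rw [not_le] at hcon
        exact h5.no _ hyal l2 hcon
      · intro e
        have e' : w = y := G.r_inj e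
        have := hc.y_t hπ hN
        rw [← e'] at this
        omega
    · have h5 := (G.up_up hw).lt
      rw [← h4, hs] at h5
      exact h5.trans l2

/-- Stay, one step: an area vertex which does not step on the barrier goes to the area or to the phase. -/
theorem Ar.fwd {y : V} {a c : ℕ} {v : V} (h : Ar G π z tl y a c v) {ρ : V → V} (hρ : Ch G ρ) (hs : ρ v ≠ y) :
    Ar G π z tl y a c (ρ v) ∨ (Orb π z (ρ v) ∧ G.t (ρ v) ≤ G.t (host G π z c)) := by
  let _ := G.ord
  obtain ⟨hac, k1, k2, k3⟩ := h.p0 hπ hN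
  obtain ⟨hO, ha, hc, _⟩ := h
  have hcN : c ≤ G.N := hc.2.1.trans hN
  have hv : G.inn v := G.inn_of_t k2 hcN
  obtain ⟨l1, l2⟩ := k3 _ (G.al_t v)
  have ht1 : a ≤ G.t v := k1.le.trans (G.bt v)
  have hhal := host_al25 hπ (k2.le.trans hcN) (((G.bt z).trans ha.1.le).trans ht1)
  have hyal : G.al y (G.t v) := ⟨(ha.up hπ hN).ay.1.trans ht1, k2.le.trans (hc.y_t hπ hN).le⟩
  rcases hρ.2.2 v hv with h4 | h4
  · have h5 := G.up_lo hv
    rw [← h4] at h5
    have h6 : host G π z (G.t v) ≤ ρ v := by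
      by_contra hcon
      rw [not_le] at hcon
      exact h5.no _ hhal hcon l1
    rcases h6.eq_or_lt with h7 | h7
    · right
      rw [← h7]
      refine ⟨host_orb25 hπ z (k2.le.trans hcN), ?_⟩
      have h8 := host_host hπ (u := z) k2.le hcN
      rw [← h8]
      exact Orb.t_le hπ (host_orb25 hπ _ hcN)
    · exact between hπ hN ha hc ht1 k2.le h5.ax h7 (h5.lt.trans l2)
  · have h5 := G.up_up hv
    rw [← h4] at h5
    have h6 : ρ v ≤ y := by
      by_contra hcon
      rw [not_le] at hcon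
      exact h5.no _ hyal l2 hcon
    exact between hπ hN ha hc ht1 k2.le h5.ay (l1.trans h5.lt) (lt_of_le_of_ne h6 (fun e => hs (G.r_inj e)))

end basic

/-! ### Both sides -/

section both

variable {π : V → V} (hπ : Ch G π) {z : V} {tl : ℕ} (hN : tl ≤ G.N)

theorem Area.mir {u : V} (h : Area G π z tl u) : Area G.mir π z tl u := by
  unfold Area
  rw [G.mir_mir]
  exact h.symm

theorem Area.mir_iff {u : V} : Area G.mir π z tl u ↔ Area G π z tl u := by
  unfold Area
  rw [G.mir_mir]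
  exact or_comm

include hπ hN

omit hπ hN in
theorem Area.notO {u : V} (h : Area G π z tl u) : ¬ Orb π z u := by
  rcases h with ⟨y, a, c, h⟩ | ⟨y, a, c, h⟩
  · exact h.1
  · exact h.1

theorem Area.time {u : V} (h : Area G π z tl u) : G.t z < G.b u ∧ G.t u < tl := by
  rcases h with ⟨y, a, c, h⟩ | ⟨y, a, c, h⟩
  · obtain ⟨_, k1, k2, _⟩ := h.p0 hπ hN
    exact ⟨h.2.1.1.trans k1, k2.trans_le h.2.2.1.2.1⟩
  · obtain ⟨_, k1, k2, _⟩ := h.p0 (G := G.mir) hπ.mir25 hN
    exact ⟨h.2.1.1.trans k1, k2.trans_le h.2.2.1.2.1⟩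

theorem Area.inn {u : V} (h : Area G π z tl u) : G.inn u := G.inn_of_t (h.time hπ hN).2 hN

/-- (P1'). -/
theorem Area.root {u r : V} {T0 T1 : ℕ} (h : Area G π z tl u) (hr : Orb π r u)
    (h0 : T0 ≤ G.t z) (h1 : tl ≤ T1) (hroot : ¬ (T0 < G.b r ∧ G.t r < T1)) : False := by
  rcases h with ⟨y, a, c, h⟩ | ⟨y, a, c, h⟩
  · exact p1root hπ hN h hr h0 h1 hroot
  · exact p1root (G := G.mir) hπ.mir25 hN h hr h0 h1 hroot

/-- Never enter, one step. -/
theorem Area.back {v w : V} (h : Area G π z tl v) {ρ : V → V} (hρ : Ch G ρ) (hw : G.inn w)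
    (hwO : ¬ Orb π z w) (hs : ρ w = v) : Area G π z tl w := by
  rcases h with ⟨y, a, c, h⟩ | ⟨y, a, c, h⟩
  · exact Or.inl ⟨y, a, c, h.back hπ hN hρ hw hwO hs⟩
  · exact Or.inr ⟨y, a, c, Ar.back (G := G.mir) hπ.mir25 hN h hρ.mir25 (G.mir_inn.2 hw) hwO hs⟩

end both

end Pool.Agent.W_a4f561_P25
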