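import Pool.Agent.W_a4f561_P25.Draw

/-!
MP_a4f561_co, polylog (helper1's text, section 3): routes inside areas, the law after the areas of a phase are declared,
HEADS GET IN (pointwise), forced barriers for any choice function.
-/

set_option autoImplicit false

namespace Pool.Agent.W_a4f561_P25

open Pool.Agent.W_a4f561_h26
open Pool.Agent.W_a4f561_P73
open Pool.Agent.W_a4f561_E.Pk25 hiding Rec

variable {V : Type} {G : Bars V} {σ : St V} {z : V} {tl : ℕ}

/-- A vertex on the route of a member of a closed set. -/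
theorem orb_cl {π : V → V} {S : Set V} (hS : ∀ v ∈ S, π v ∈ S) {u w : V} (hu : u ∈ S) (h : Orb π u w) : w ∈ S := by
  obtain ⟨k, rfl⟩ := h
  induction k with
  | zero => exact hu
  | succ k ih =>
    rw [Function.iterate_succ_apply']
    exact hS _ ih

/-- The first step of a route. -/
theorem orb_cases {π : V → V} {u w : V} (h : Orb π u w) : w = u ∨ Orb π (π u) w := by
  obtain ⟨k, rfl⟩ := h
  rcases k with _ | k
  · exact Or.inl rfl
  · exact Or.inr ⟨k, (Function.iterate_succ_apply π k u).symm⟩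

theorem orb_cons {π : V → V} {u w : V} (h : Orb π (π u) w) : Orb π u w := by
  obtain ⟨k, rfl⟩ := h
  exact ⟨k + 1, Function.iterate_succ_apply π k u⟩

/-- A vertex of an area never steps on the barrier. -/
theorem no_bar (h : Phs G σ z tl) {ρ : V → V} (hρ : Fin' G (sg G σ z tl) ρ) {y : V} {a c : ℕ} {w : V}
    (hw : Ar G σ.pi z tl y a c w) : ρ w ≠ y := by
  let _ := G.ord
  intro e
  obtain ⟨hac, k1, k2, k3⟩ := hw.p0 h.inv.ch h.hN
  have hcN : c ≤ G.N := hw.2.2.1.2.1.trans h.hN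
  have hin : G.inn w := G.inn_of_t k2 hcN
  have hlt : w < y := (k3 _ (G.al_t w)).2
  have hup : G.up w = y := by
    rcases hρ.1.2.2 w hin with h1 | h1
    · exfalso
      have h2 := (G.up_lo hin).lt
      rw [← h1, e] at h2
      exact lt_asymm h2 hlt
    · rw [← h1, e]
  have hw' : Ar G σ.pi z tl (G.up w) a c w := by rw [hup]; exact hw
  have hlo : ρ w = G.lo w := by
    by_cases hD : w ∈ σ.Dec
    · rw [hρ.2 w (Or.inr (Or.inl hD))]
      show pi2 G σ z tl w = G.lo w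
      rw [pi2_old (Or.inr hD)]
      exact dec_old h hw' hD
    · have h1 : NwD G σ z tl w := ⟨hD, a, c, hw'⟩
      rw [hρ.2 w (Or.inr (Or.inr (Or.inl h1)))]
      exact pi2_D h h1
  have h2 := (G.up_lo hin).lt
  rw [← hlo, e] at h2
  exact lt_asymm h2 hlt

/-- (P2): the route of an area vertex stays in the area until it meets the phase, in time. -/
theorem Ar.meet (h : Phs G σ z tl) {ρ : V → V} (hρ : Fin' G (sg G σ z tl) ρ) {y : V} {a c : ℕ} {w : V}
    (hw : Ar G σ.pi z tl y a c w) :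
    ∃ v', Orb ρ w v' ∧ Orb σ.pi z v' ∧ G.t v' ≤ G.t (host G σ.pi z c) ∧
      ∀ w', Orb ρ w w' → G.t w' < G.t v' → Ar G σ.pi z tl y a c w' := by
  obtain ⟨n, hn⟩ : ∃ n, c - G.t w = n := ⟨_, rfl⟩
  induction n using Nat.strong_induction_on generalizing w with
  | _ n ih =>
    obtain ⟨hac, k1, k2, k3⟩ := hw.p0 h.inv.ch h.hN
    have hcN : c ≤ G.N := hw.2.2.1.2.1.trans h.hN
    have hin : G.inn w := G.inn_of_t k2 hcN
    have hts := hρ.1.t_lt hin
    rcases hw.fwd h.inv.ch h.hN hρ.1 (no_bar h hρ hw) with h1 | h1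
    · obtain ⟨_, _, m2, _⟩ := h1.p0 h.inv.ch h.hN
      obtain ⟨v', n1, n2, n3, n4⟩ := ih (c - G.t (ρ w)) (by omega) h1 rfl
      refine ⟨v', orb_cons n1, n2, n3, fun w' l1 l2 => ?_⟩
      rcases orb_cases l1 with l3 | l3
      · rw [l3]
        exact hw
      · exact n4 w' l3 l2
    · refine ⟨ρ w, (Orb.refl ρ w).step, h1.1, h1.2, fun w' l1 l2 => ?_⟩
      rcases orb_cases l1 with l3 | l3
      · rw [l3]
        exact hw
      · exfalso
        have := Orb.t_le hρ.1 l3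
        omega

/-- (P2) for both sides. -/
theorem Area.meet (h : Phs G σ z tl) {ρ : V → V} (hρ : Fin' G (sg G σ z tl) ρ) {w : V}
    (hw : Area G σ.pi z tl w) :
    ∃ v', Orb ρ w v' ∧ Orb σ.pi z v' ∧ G.t v' ≤ G.t (host G σ.pi z tl) ∧
      ∀ w', Orb ρ w w' → G.t w' < G.t v' → Area G σ.pi z tl w' := by
  have hle : ∀ {c : ℕ}, c ≤ tl → G.t (host G σ.pi z c) ≤ G.t (host G σ.pi z tl) := by
    intro c hc
    have h1 := host_host h.inv.ch (u := z) hc h.hN
    rw [← h1]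
    exact Orb.t_le h.inv.ch (host_orb25 h.inv.ch _ h.hN)
  rcases hw with ⟨y, a, c, hw⟩ | ⟨y, a, c, hw⟩
  · obtain ⟨v', n1, n2, n3, n4⟩ := hw.meet h hρ
    exact ⟨v', n1, n2, n3.trans (hle hw.2.2.1.2.1), fun w' l1 l2 => Or.inl ⟨y, a, c, n4 w' l1 l2⟩⟩
  · have hρ' : Fin' G.mir (sg G.mir σ.mir z tl) ρ := by
      rw [sg_mir h]
      exact ⟨hρ.1.mir25, hρ.2⟩
    obtain ⟨v', n1, n2, n3, n4⟩ := Ar.meet (G := G.mir) (σ := σ.mir) h.mir hρ' hw
    exact ⟨v', n1, n2, n3.trans (hle hw.2.2.1.2.1), fun w' l1 l2 => Or.inr ⟨y, a, c, n4 w' l1 l2⟩⟩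

/-- The law after the declaration: only new declared vertices change. -/
theorem law_sg (_h : Phs G σ z tl) (ω : V × Bool → Bool) {v : V} (h1 : ¬ NwD G σ z tl v) (h2 : ¬ NwD G.mir σ z tl v) :
    law G (sg G σ z tl) ω v = law G σ ω v := by
  by_cases h3 : v ∈ σ.S ∪ σ.Dec
  · unfold law
    rw [if_pos h3, if_pos (show v ∈ (sg G σ z tl).S ∪ (sg G σ z tl).Dec from
      h3.imp id fun h4 => Or.inl h4)]
    exact pi2_old h3
  · have h4 : v ∉ (sg G σ z tl).S ∪ (sg G σ z tl).Dec := by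
      rintro (h4 | h4 | h4 | h4)
      · exact h3 (Or.inl h4)
      · exact h3 (Or.inr h4)
      · exact h1 h4
      · exact h2 h4
    unfold law
    rw [if_neg h3, if_neg h4]

theorem law_ch (hI : Inv G σ) (ω : V × Bool → Bool) : Ch G (law G σ ω) := by
  refine ⟨?_, ?_, fun v hv => ?_⟩
  · unfold law
    rw [if_pos (show G.bot ∈ σ.S ∪ σ.Dec from Or.inl hI.bot_mem)]
    exact hI.ch.1
  · unfold law
    rw [if_pos (show G.top ∈ σ.S ∪ σ.Dec from Or.inl hI.top_mem)]
    exact hI.ch.2.1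
  · unfold law
    split_ifs
    · exact hI.ch.2.2 v hv
    · rcases zz_cases25 G v with h | h
      · exact Or.inl h.1
      · exact Or.inr h.1
    · rcases zz_cases25 G v with h | h
      · exact Or.inr h.2
      · exact Or.inl h.2

theorem law_fin (hI : Inv G σ) (ω : V × Bool → Bool) : Fin' G σ (law G σ ω) :=
  ⟨law_ch hI ω, fun v hv => by
    unfold law
    rw [if_pos hv]⟩

theorem law_sg_area (h : Phs G σ z tl) (ω : V × Bool → Bool) {v : V} (h1 : ¬ Area G σ.pi z tl v) :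
    law G (sg G σ z tl) ω v = law G σ ω v :=
  law_sg h ω (fun h2 => h1 h2.area) (fun h2 => h1 h2.areaU)

/-- The vertex of the phase which is alive at `c` is the first one that dies at `c` or later. -/
theorem host_first {π : V → V} (hπ : Ch G π) {v : V} {c : ℕ} (hv : Orb π z v) (hc : c ≤ G.t v) (hN : c ≤ G.N) :
    G.t (host G π z c) ≤ G.t v := by
  obtain ⟨k, k1, k2, k3⟩ := host_exists hπ z hN
  obtain ⟨l, rfl⟩ := hv
  rw [k1]
  refine hπ.iter_mono z ?_
  by_contra hcon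
  have := k2 l (by omega)
  omega

/-- HEADS GET IN, the case that the two routes part in an area above the phase. -/
theorem part_aux (h : Phs G σ z tl) {ρ ρ1 : V → V} (hρ : Fin' G σ ρ) (hρ1 : Fin' G (sg G σ z tl) ρ1) {u0 v : V}
    (hu : NwD G σ z tl u0) (hne : ρ1 u0 ≠ ρ u0) (hv : Orb ρ (ρ u0) v) (hz : Orb σ.pi z v) :
    ∃ v', Orb ρ1 u0 v' ∧ Orb σ.pi z v' ∧ G.t v' ≤ G.t v ∧
      ∀ w, Orb ρ1 u0 w → G.t w < G.t v' → Area G σ.pi z tl w := by
  have hu' := hu
  obtain ⟨hD, a, c, hA⟩ := hu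
  obtain ⟨hac, k1, k2, k3⟩ := hA.p0 h.inv.ch h.hN
  have hcN : c ≤ G.N := hA.2.2.1.2.1.trans h.hN
  have hin : G.inn u0 := G.inn_of_t k2 hcN
  have h1 : ρ1 u0 = G.lo u0 := by
    rw [hρ1.2 u0 (Or.inr (Or.inr (Or.inl hu')))]
    exact pi2_D h hu'
  have h2 : ρ u0 = G.up u0 := by
    rcases hρ.1.2.2 u0 hin with h3 | h3
    · exact absurd (h1.trans h3.symm) hne
    · exact h3
  have h3 : c < G.t (G.up u0) := hA.2.2.1.y_t h.inv.ch h.hN
  have h4 : G.t (G.up u0) ≤ G.t v := by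
    rw [← h2]
    exact Orb.t_le hρ.1 hv
  obtain ⟨v', n1, n2, n3, n4⟩ := hA.meet h hρ1
  exact ⟨v', n1, n2, n3.trans (host_first h.inv.ch hz (by omega) hcN), fun w l1 l2 => Or.inl ⟨_, a, c, n4 w l1 l2⟩⟩

/-- HEADS GET IN (pointwise): if the old route of `u0` meets the phase in `v` (and is outside of `S` before), the new route
meets the phase not later; before it is on the old route or in an area. -/
theorem heads (h : Phs G σ z tl) (ω : V × Bool → Bool) {u0 v : V} (hu : u0 ∉ σ.S)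
    (hv : Orb (law G σ ω) u0 v) (hz : Orb σ.pi z v)
    (hav : ∀ w, Orb (law G σ ω) u0 w → G.t w < G.t v → w ∉ σ.S) :
    ∃ v', Orb (law G (sg G σ z tl) ω) u0 v' ∧ Orb σ.pi z v' ∧ G.t v' ≤ G.t v ∧
      ∀ w, Orb (law G (sg G σ z tl) ω) u0 w → G.t w < G.t v' →
        (Orb (law G σ ω) u0 w ∧ G.t w < G.t v) ∨ Area G σ.pi z tl w := by
  obtain ⟨k, hk⟩ := hv
  have hvS : v ∈ σ.S := orb_cl h.inv.cl h.zS hz
  have hch := law_ch h.inv ω
  have hf := law_fin h.inv ω
  have hf1 := law_fin (sg_inv h) ω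
  set ρ := law G σ ω with hρ
  set ρ1 := law G (sg G σ z tl) ω with hρ1
  induction k generalizing u0 with
  | zero =>
    exfalso
    have : u0 = v := hk
    rw [this] at hu
    exact hu hvS
  | succ k ih =>
    have hk' : ρ^[k] (ρ u0) = v := by
      rw [← Function.iterate_succ_apply]
      exact hk
    have hin : G.inn u0 := ⟨fun e => hu (e ▸ h.inv.bot_mem), fun e => hu (e ▸ h.inv.top_mem)⟩
    have ht := hch.t_lt hin
    have hle : G.t (ρ u0) ≤ G.t v := Orb.t_le hch ⟨k, hk'⟩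
    by_cases hne : ρ1 u0 = ρ u0
    · by_cases hS : ρ u0 ∈ σ.S
      · -- the step enters `S`: it is `v`
        have he : ρ u0 = v := by
          by_contra hcon
          have h1 : G.t (ρ u0) < G.t v := lt_of_le_of_ne hle fun e => hcon (G.t_inj e)
          exact hav _ ((Orb.refl ρ u0).step) h1 hS
        refine ⟨v, ?_, hz, le_rfl, fun w l1 l2 => ?_⟩
        · rw [← he, ← hne]
          exact (Orb.refl ρ1 u0).step
        · rcases orb_cases l1 with l3 | l3
          · rw [l3]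
            exact Or.inl ⟨Orb.refl _ _, ht.trans_le hle⟩
          · exfalso
            have l4 := Orb.t_le hf1.1 l3
            rw [hne, he] at l4
            omega
      · obtain ⟨v', n1, n2, n3, n4⟩ := ih hS (fun w l1 l2 => hav w (orb_cons l1) l2) hk'
        refine ⟨v', orb_cons (by rw [hne]; exact n1), n2, n3, fun w l1 l2 => ?_⟩
        rcases orb_cases l1 with l3 | l3
        · rw [l3]
          exact Or.inl ⟨Orb.refl _ _, ht.trans_le hle⟩
        · rw [hne] at l3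
          rcases n4 w l3 l2 with l4 | l4
          · exact Or.inl ⟨orb_cons l4.1, l4.2⟩
          · exact Or.inr l4
    · by_cases h1 : NwD G σ z tl u0
      · obtain ⟨v', n1, n2, n3, n4⟩ := part_aux h hf hf1 h1 hne ⟨k, hk'⟩ hz
        exact ⟨v', n1, n2, n3, fun w l1 l2 => Or.inr (n4 w l1 l2)⟩
      · by_cases h2 : NwD G.mir σ z tl u0
        · have hf' : Fin' G.mir σ.mir ρ := ⟨hf.1.mir25, hf.2⟩
          have hf1' : Fin' G.mir (sg G.mir σ.mir z tl) ρ1 := by
            rw [sg_mir h]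
            exact ⟨hf1.1.mir25, hf1.2⟩
          obtain ⟨v', n1, n2, n3, n4⟩ := part_aux (G := G.mir) (σ := σ.mir) h.mir hf' hf1' h2 hne ⟨k, hk'⟩ hz
          exact ⟨v', n1, n2, n3, fun w l1 l2 => Or.inr (Area.mir_iff.1 (n4 w l1 l2))⟩
        · exact absurd (law_sg h ω h1 h2) hne

/-! ### Forced barriers -/

/-- Forced barriers: the whole route (outside of `S`) is in the region of an old record with that barrier. -/
theorem fb_in' (hI : Inv G σ) {ρ : V → V} (hρ : Fin' G σ ρ) {z v : V} (hzv : Orb ρ z v)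
    (hvD : ρ v = G.lo v) (hlS : G.lo v ∉ σ.S) (hf : fb G σ v) :
    ∃ R ∈ σ.RD, R.y = G.flh v ∧ ∀ τ, G.b z ≤ τ → τ ≤ G.N → host G ρ z τ ∉ σ.S →
      R.a ≤ τ ∧ τ ≤ R.c ∧ G.r (host G σ.pi R.q τ) < G.r (host G ρ z τ) ∧ G.r (host G ρ z τ) < G.r R.y := by
  let _ := G.ord
  obtain ⟨u, f1, f2, f3, f4, f5, f6⟩ := hf
  have hch := hρ.1
  have hdec : ∃ R ∈ σ.RD, DecBy G σ R u := by
    rcases hI.decl u f1 f2 with hd | ⟨R, hR, hd⟩
    · exact hd
    · exfalso
      have hin : G.inn u := G.inn_of_t hd.2.1 (hI.recU R hR).cN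
      have h1 : σ.pi u = G.mir.lo u := hd.2.2.2.2
      rw [G.mir_lo, f3] at h1
      exact lo_ne_up' hin h1
  obtain ⟨R, hR, hd⟩ := hdec
  have hRr := hI.recD R hR
  have hin : G.inn u := G.inn_of_t hd.2.1 hRr.cN
  obtain ⟨t1, t2⟩ := Pool.Agent.W_a4f561_R25.fb_time (σ := σ) hin f4 f5
  have huN : G.t u ≤ G.N := hd.2.1.le.trans hRr.cN
  have hzv' : G.b z ≤ G.t u := ((G.bt z).trans (Orb.t_le hch hzv)).trans t1
  have hcl : ∀ v ∈ σ.S, ρ v ∈ σ.S := fun v hv => by
    rw [hρ.2 v (Or.inl hv)]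
    exact hI.cl v hv
  have hhost : host G ρ z (G.t u) ∉ σ.S ∧
      G.r (host G σ.pi R.q (G.t u)) < G.r (host G ρ z (G.t u)) ∧
      G.r (host G ρ z (G.t u)) < G.r R.y := by
    have huy : G.r u < G.r R.y := by
      rw [← hd.2.2.2.1]
      exact (G.up_up hin).lt
    rcases t1.eq_or_lt with t3 | t3
    · have e : v = u := G.t_inj t3
      rw [host_of_orb hch hzv t3.symm huN, e]
      exact ⟨f2, hd.2.2.1, huy⟩
    · have e : host G ρ z (G.t u) = G.lo v := by
        rw [← hvD]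
        refine Pool.Agent.W_a4f561_R25.host_btw hch hzv t3 ?_ huN
        rw [hvD]
        omega
      rw [e]
      have k1 := G.up_lo hin
      rw [f4] at k1
      refine ⟨hlS, ?_, k1.lt.trans huy⟩
      have k2 : host G σ.pi R.q (G.t u) ≠ G.lo v := by
        intro k3
        have := Pool.Agent.W_a4f561_R25.q_mem hI hRr huN
        rw [k3] at this
        exact hlS this
      refine lt_of_le_of_ne (not_lt.1 fun k3 => ?_) (fun k3 => k2 (G.r_inj k3))
      exact k1.no _ (host_al25 hI.ch huN (hRr.b_le.trans hd.1.le)) k3 hd.2.2.1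
  refine ⟨R, hR, by rw [← f6]; exact hd.2.2.2.1.symm, fun τ k1 k2 k3 => ?_⟩
  obtain ⟨m1, m2, m3, m4⟩ := Pool.Agent.W_a4f561_R25.in_all hI hRr hch hcl
    (fun v hv _ => hρ.2 v (Or.inr hv)) hzv' hd.1.le hd.2.1.le hhost.1 hhost.2.1 hhost.2.2 k1 k2 k3
  exact ⟨m1.le, m2.le, m3, m4⟩

/-- P5: one forced barrier for a route. -/
theorem fb_one' (hI : Inv G σ) {ρ : V → V} (hρ : Fin' G σ ρ) {z v v' : V} (hzv : Orb ρ z v)
    (hvD : ρ v = G.lo v) (hlS : G.lo v ∉ σ.S) (hf : fb G σ v) (hzv' : Orb ρ z v')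
    (hvD' : ρ v' = G.lo v') (hlS' : G.lo v' ∉ σ.S) (hf' : fb G σ v') : G.flh v = G.flh v' := by
  have key : ∀ v v', Orb ρ z v → ρ v = G.lo v → G.lo v ∉ σ.S → fb G σ v → Orb ρ z v' → ρ v' = G.lo v' →
      G.lo v' ∉ σ.S → fb G σ v' → G.r (G.flh v) ≤ G.r (G.flh v') := by
    intro v v' hzv hvD hlS hf hzv' hvD' hlS' hf'
    let _ := G.ord
    obtain ⟨R', hR', hy', hin'⟩ := fb_in' hI hρ hzv' hvD' hlS' hf'
    have hch := hρ.1
    obtain ⟨u, f1, f2, f3, f4, f5, f6⟩ := hf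
    have hinu : G.inn u ∧ G.t u + 1 ≤ G.N := by
      rcases hI.decl u f1 f2 with ⟨R, hR, hd⟩ | ⟨R, hR, hd⟩
      · have := (hI.recD R hR).cN
        exact ⟨G.inn_of_t hd.2.1 this, hd.2.1.trans_le this⟩
      · have := (hI.recU R hR).cN
        exact ⟨G.inn_of_t hd.2.1 this, hd.2.1.trans_le this⟩
    obtain ⟨t1, t2⟩ := Pool.Agent.W_a4f561_R25.fb_time (σ := σ) hinu.1 f4 f5
    have hN : G.tau1 v ≤ G.N := by rw [← f5]; exact hinu.2
    have e : host G ρ z (G.tau1 v) = G.lo v := by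
      rw [← hvD]
      refine Pool.Agent.W_a4f561_R25.host_btw hch hzv (by omega) ?_ hN
      rw [hvD]
      exact t2
    have hzv1 : G.b z ≤ G.tau1 v := ((G.bt z).trans (Orb.t_le hch hzv)).trans (by omega)
    obtain ⟨m1, m2, m3, m4⟩ := hin' (G.tau1 v) hzv1 hN (by rw [e]; exact hlS)
    rw [e] at m4
    have hne : G.lo v ≠ G.top := by
      intro h1
      rw [h1] at hlS
      exact hlS hI.top_mem
    have hR'r := hI.recD R' hR'
    have h5 := (G.ub_spec hne hN).2.2 R'.y ⟨hR'r.y_b.trans m1, m2.trans hR'r.y_t.le⟩ m4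
    rw [← hy']
    exact h5
  exact G.r_inj (le_antisymm (key v v' hzv hvD hlS hf hzv' hvD' hlS' hf')
    (key v' v hzv' hvD' hlS' hf' hzv hvD hlS hf))

end Pool.Agent.W_a4f561_P25
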