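import Pool.Agent.W_a4f561_P25.Dr1
import Pool.Agent.W_a4f561_h33.Sl33

/-!
MP_a4f561_co, polylog: everything about areas, from helper1's `Dr1` alone: (P2), the coupling of the laws before and after the
declarations (HEADS GET IN pointwise), `RelH`.
-/

set_option autoImplicit false

namespace Pool.Agent.W_a4f561_P25.D

open Pool.Agent.W_a4f561_h26
open Pool.Agent.W_a4f561_P73
open Pool.Agent.W_a4f561_P25
open Pool.Agent.W_a4f561_h1 (IsRc WInv Exi TD Bp Dr1 MS PS)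
open Pool.Agent.W_a4f561_P25.W (rc_to wi_of orb_cases orb_cons host_first)

variable {V : Type} {G : Bars V}

/-- A choice function which never steps on the barrier from an area. -/
structure NB (G : Bars V) (π : V → V) (z : V) (tl : ℕ) (ρ : V → V) : Prop where
  ch : Ch G π
  hN : tl ≤ G.N
  chr : Ch G ρ
  nb : ∀ y a c w, Ar G π z tl y a c w → ρ w ≠ y

variable {π ρ ρ1 : V → V} {z : V} {tl : ℕ}

/-- (P2): the route of an area vertex stays in the area until it meets the phase, in time. -/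
theorem NB.meet (h : NB G π z tl ρ) {y : V} {a c : ℕ} {w : V} (hw : Ar G π z tl y a c w) :
    ∃ v', Orb ρ w v' ∧ Orb π z v' ∧ G.t v' ≤ G.t (host G π z c) ∧
      ∀ w', Orb ρ w w' → G.t w' < G.t v' → Ar G π z tl y a c w' := by
  obtain ⟨n, hn⟩ : ∃ n, c - G.t w = n := ⟨_, rfl⟩
  induction n using Nat.strong_induction_on generalizing w with
  | _ n ih =>
    obtain ⟨hac, k1, k2, k3⟩ := hw.p0 h.ch h.hN
    have hcN : c ≤ G.N := hw.2.2.1.2.1.trans h.hN
    have hin : G.inn w := G.inn_of_t k2 hcN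
    have hts := h.chr.t_lt hin
    rcases hw.fwd h.ch h.hN h.chr (h.nb y a c w hw) with h1 | h1
    · obtain ⟨_, _, m2, _⟩ := h1.p0 h.ch h.hN
      obtain ⟨v', n1, n2, n3, n4⟩ := ih (c - G.t (ρ w)) (by omega) h1 rfl
      refine ⟨v', orb_cons n1, n2, n3, fun w' l1 l2 => ?_⟩
      rcases orb_cases l1 with l3 | l3
      · rw [l3]
        exact hw
      · exact n4 w' l3 l2
    · refine ⟨ρ w, (Orb.refl ρ w).step, h1.1, h1.2, fun w' l1 l2 => ?_⟩
      rcases orb_cases l1 with l3 | l3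
      · rw [l3]
        exact hw
      · exfalso
        have := Orb.t_le h.chr l3
        omega

/-- The two routes part in an area above the phase. -/
theorem NB.part (h : NB G π z tl ρ1) (hρ : Ch G ρ) {u0 v : V} {a c : ℕ} (hA : Ar G π z tl (G.up u0) a c u0)
    (h1 : ρ1 u0 = G.lo u0) (hne : ρ1 u0 ≠ ρ u0) (hv : Orb ρ (ρ u0) v) (hz : Orb π z v) :
    ∃ v', Orb ρ1 u0 v' ∧ Orb π z v' ∧ G.t v' ≤ G.t v ∧
      ∀ w, Orb ρ1 u0 w → G.t w < G.t v' → Area G π z tl w := by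
  obtain ⟨hac, k1, k2, k3⟩ := hA.p0 h.ch h.hN
  have hcN : c ≤ G.N := hA.2.2.1.2.1.trans h.hN
  have hin : G.inn u0 := G.inn_of_t k2 hcN
  have h2 : ρ u0 = G.up u0 := by
    rcases hρ.2.2 u0 hin with h3 | h3
    · exact absurd (h1.trans h3.symm) hne
    · exact h3
  have h3 : c < G.t (G.up u0) := hA.2.2.1.y_t h.ch h.hN
  have h4 : G.t (G.up u0) ≤ G.t v := by
    rw [← h2]
    exact Orb.t_le hρ hv
  obtain ⟨v', n1, n2, n3, n4⟩ := h.meet hA
  exact ⟨v', n1, n2, n3.trans (host_first h.ch hz (by omega) hcN), fun w l1 l2 => Or.inl ⟨_, a, c, n4 w l1 l2⟩⟩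

/-- HEADS GET IN (pointwise), abstract. -/
theorem heads_abs (h : NB G π z tl ρ1) (h' : NB G.mir π z tl ρ1) (hρ : Ch G ρ) {S : Set V} (hb : G.bot ∈ S)
    (ht : G.top ∈ S) (hS : ∀ v, Orb π z v → G.t v ≤ tl → v ∈ S)
    (hdiff : ∀ u, u ∉ S → ρ1 u ≠ ρ u → (ρ1 u = G.lo u ∧ ∃ a c, Ar G π z tl (G.up u) a c u) ∨
      (ρ1 u = G.up u ∧ ∃ a c, Ar G.mir π z tl (G.lo u) a c u)) {u0 v : V} (hu : u0 ∉ S)
    (hv : Orb ρ u0 v) (hz : Orb π z v) (htl : G.t v ≤ tl)
    (hav : ∀ w, Orb ρ u0 w → G.t w < G.t v → w ∉ S) :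
    ∃ v', Orb ρ1 u0 v' ∧ Orb π z v' ∧ G.t v' ≤ G.t v ∧
      ∀ w, Orb ρ1 u0 w → G.t w < G.t v' → (Orb ρ u0 w ∧ G.t w < G.t v) ∨ Area G π z tl w := by
  obtain ⟨k, hk⟩ := hv
  have hvS : v ∈ S := hS v hz htl
  induction k generalizing u0 with
  | zero =>
    exfalso
    have : u0 = v := hk
    rw [this] at hu
    exact hu hvS
  | succ k ih =>
    have hk' : ρ^[k] (ρ u0) = v := by
      rw [← Function.iterate_succ_apply]
      exact hk
    have hin : G.inn u0 := ⟨fun e => hu (e ▸ hb), fun e => hu (e ▸ ht)⟩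
    have hts := hρ.t_lt hin
    have hle : G.t (ρ u0) ≤ G.t v := Orb.t_le hρ ⟨k, hk'⟩
    by_cases hne : ρ1 u0 = ρ u0
    · by_cases hS' : ρ u0 ∈ S
      · have he : ρ u0 = v := by
          by_contra hcon
          have h1 : G.t (ρ u0) < G.t v := lt_of_le_of_ne hle fun e => hcon (G.t_inj e)
          exact hav _ ((Orb.refl ρ u0).step) h1 hS'
        refine ⟨v, ?_, hz, le_rfl, fun w l1 l2 => ?_⟩
        · rw [← he, ← hne]
          exact (Orb.refl ρ1 u0).step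
        · rcases orb_cases l1 with l3 | l3
          · rw [l3]
            exact Or.inl ⟨Orb.refl _ _, hts.trans_le hle⟩
          · exfalso
            have l4 := Orb.t_le h.chr l3
            rw [hne, he] at l4
            omega
      · obtain ⟨v', n1, n2, n3, n4⟩ := ih hS' (fun w l1 l2 => hav w (orb_cons l1) l2) hk'
        refine ⟨v', orb_cons (by rw [hne]; exact n1), n2, n3, fun w l1 l2 => ?_⟩
        rcases orb_cases l1 with l3 | l3
        · rw [l3]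
          exact Or.inl ⟨Orb.refl _ _, hts.trans_le hle⟩
        · rw [hne] at l3
          rcases n4 w l3 l2 with l4 | l4
          · exact Or.inl ⟨orb_cons l4.1, l4.2⟩
          · exact Or.inr l4
    · rcases hdiff u0 hu hne with ⟨h1, a, c, hA⟩ | ⟨h1, a, c, hA⟩
      · obtain ⟨v', n1, n2, n3, n4⟩ := h.part hρ hA h1 hne ⟨k, hk'⟩ hz
        exact ⟨v', n1, n2, n3, fun w l1 l2 => Or.inr (n4 w l1 l2)⟩
      · obtain ⟨v', n1, n2, n3, n4⟩ := NB.part (G := G.mir) h' hρ.mir25 (u0 := u0)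
          (by rw [G.mir_up]; exact hA) (by rw [G.mir_lo]; exact h1) hne ⟨k, hk'⟩ hz
        exact ⟨v', n1, n2, n3, fun w l1 l2 => Or.inr (Area.mir_iff.1 (n4 w l1 l2))⟩

/-! ### From `Dr1` -/

section dr

variable {σ σ1 : St V} {D : Set V} {ω : V × Bool → Bool} {e vl : V}

theorem winv_mir {c : V} (h : WInv G σ c) : WInv G.mir σ.mir c :=
  W.winv_of (wi_of h).mir h.lat

/-- The hosts of the phase up to its end. -/
theorem dr_tN (h : Dr1 G σ D ω z e vl σ1) (hD : ∀ v ∈ D, v ∉ σ.S) (hb : G.bot ∈ σ.S) (ht : G.top ∈ σ.S) :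
    G.t vl < G.N := by
  have h1 : vl ∈ D := h.vlB.2 vl h.vlB.1 le_rfl
  have h2 := hD vl h1
  exact G.t_in vl (fun e => h2 (e ▸ hb)) (fun e => h2 (e ▸ ht))

/-- The route of the law up to the end of the phase is the route of `σ1.pi`. -/
theorem dr_orb (hW : WInv G σ z) (h : Dr1 G σ D ω z e vl σ1) {v : V} (hv : Orb (law G σ ω) z v)
    (ht : G.t v ≤ G.t vl) : Orb σ1.pi z v := by
  have hch := (W.law_fin (wi_of hW) ω).1
  obtain ⟨k, rfl⟩ := hv
  induction k with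
  | zero => exact Orb.refl _ _
  | succ k ih =>
    have h1 : G.t ((law G σ ω)^[k] z) ≤ G.t ((law G σ ω)^[k + 1] z) := hch.iter_mono z (Nat.le_succ k)
    have h2 := (ih (h1.trans ht)).step
    rw [h.piB _ ⟨⟨k, rfl⟩, fun u hu hu2 => h.vlB.2 u hu (hu2.trans (h1.trans ht))⟩] at h2
    rw [Function.iterate_succ_apply']
    exact h2

theorem dr_host (hW : WInv G σ z) (h : Dr1 G σ D ω z e vl σ1) (hN : G.t vl ≤ G.N) {τ : ℕ} (hτ : τ ≤ G.t vl) :
    host G σ1.pi z τ = host G (law G σ ω) z τ := by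
  refine host_congr25 (W.law_fin (wi_of hW) ω).1 h.inv.ch (hτ.trans hN) fun v hv ht => h.piB v ?_
  exact ⟨hv, fun u hu hu2 => h.vlB.2 u hu (hu2.trans (ht.le.trans hτ))⟩

theorem dr_orb' (hW : WInv G σ z) (h : Dr1 G σ D ω z e vl σ1) (hN : G.t vl ≤ G.N) {v : V} (hv : Orb σ1.pi z v)
    (ht : G.t v ≤ G.t vl) : Orb (law G σ ω) z v := by
  have h1 := host_of_orb h.inv.ch hv rfl (ht.trans hN)
  rw [dr_host hW h hN ht] at h1
  rw [← h1]
  exact host_orb25 (W.law_fin (wi_of hW) ω).1 z (ht.trans hN)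

/-- The vertices of the phase. -/
theorem dr_bp (hW : WInv G σ z) (h : Dr1 G σ D ω z e vl σ1) (hN : G.t vl ≤ G.N) {v : V} (hv : Orb σ1.pi z v)
    (ht : G.t v ≤ G.t vl) : v ∈ Bp G σ D ω z :=
  ⟨dr_orb' hW h hN hv ht, fun u hu hu2 => h.vlB.2 u hu (hu2.trans ht)⟩

theorem dr_mem (hW : WInv G σ z) (h : Dr1 G σ D ω z e vl σ1) (hN : G.t vl ≤ G.N) {v : V} (hv : Orb σ1.pi z v)
    (ht : G.t v ≤ G.t vl) : v ∈ σ1.S := (h.S v).2 (Or.inr (dr_bp hW h hN hv ht))

/-- Mirror. -/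
theorem law_mir (hW : WInv G σ z) (ω : V × Bool → Bool) : law G.mir σ.mir ω = law G σ ω := by
  funext v
  by_cases h1 : v ∈ σ.S ∪ σ.Dec
  · unfold law
    rw [if_pos h1, if_pos (show v ∈ σ.mir.S ∪ σ.mir.Dec from h1)]
    rfl
  · have hv : G.inn v := ⟨fun e => h1 (Or.inl (e ▸ hW.bot_mem)), fun e => h1 (Or.inl (e ▸ hW.top_mem))⟩
    unfold law
    rw [if_neg h1, if_neg (show ¬ v ∈ σ.mir.S ∪ σ.mir.Dec from h1), zz_mir25 hv, oo_mir hv, coin_mir25 hv]

theorem dr_mir (hW : WInv G σ z) (h : Dr1 G σ D ω z e vl σ1) : Dr1 G.mir σ.mir D ω z e vl σ1.mir := by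
  have hl := law_mir hW ω
  have hb : Bp G.mir σ.mir D ω z = Bp G σ D ω z := by
    unfold Bp
    rw [hl]
    rfl
  exact
  { vlB := by rw [hb]; exact h.vlB
    vle := by rw [hl]; exact h.vle
    inv := winv_mir h.inv
    S := fun v => by rw [hb]; exact h.S v
    piO := h.piO
    piB := fun v hv => by
      rw [hb] at hv
      rw [hl]
      exact h.piB v hv
    Dec := h.Dec
    decN := fun u hu hn => ⟨(h.decN u hu hn).1, Area.mir_iff.2 (h.decN u hu hn).2⟩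
    RD := h.RU
    RU := h.RD
    newD := h.newU
    newU := fun R hR hn => by
      rw [G.mir_mir]
      exact h.newD R hR hn
    exD := h.exU
    exU := fun y a c hac ha hc => by
      rw [G.mir_mir] at ha hc
      exact h.exD y a c hac ha hc
    noS := fun u hu hA => h.noS u hu (Area.mir_iff.1 hA) }

/-- Area vertices next to the barrier are declared. -/
theorem dr_decD (h : Dr1 G σ D ω z e vl σ1) (hN : G.t vl ≤ G.N) {y : V} {a c : ℕ} {u : V}
    (hu : Ar G σ1.pi z (G.t vl) y a c u) (hy : G.up u = y) : u ∈ σ1.Dec ∧ σ1.pi u = G.lo u := by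
  have hch := h.inv.ch
  obtain ⟨hac, k1, k2, k3⟩ := hu.p0 hch hN
  have hcN : c ≤ G.N := hu.2.2.1.2.1.trans hN
  obtain ⟨R, hR, r1, r2, r3, r4⟩ := h.exD y a c hac.le hu.2.1 hu.2.2.1
  have h1 := (h.inv.recD R hR).dec u (G.inn_of_t k2 hcN) (r3.trans (k1.le.trans (G.bt u))) (k2.trans_le r4)
    (by rw [r1]; exact (k3 _ (G.al_t u)).1) (by rw [hy, r2])
  exact ⟨h1.1.resolve_left fun h2 => h.noS u h2 (Or.inl ⟨y, a, c, hu⟩), h1.2⟩

theorem dr_decU (hW : WInv G σ z) (h : Dr1 G σ D ω z e vl σ1) (hN : G.t vl ≤ G.N) {y : V} {a c : ℕ} {u : V}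
    (hu : Ar G.mir σ1.pi z (G.t vl) y a c u) (hy : G.lo u = y) : u ∈ σ1.Dec ∧ σ1.pi u = G.up u := by
  have h1 := dr_decD (dr_mir hW h) hN (y := y) (a := a) (c := c) (u := u) hu (by rw [G.mir_up]; exact hy)
  rw [G.mir_lo] at h1
  exact h1

/-- A choice function of `σ1` never steps on the barrier from an area. -/
theorem dr_nb (_hW : WInv G σ z) (h : Dr1 G σ D ω z e vl σ1) (hN : G.t vl ≤ G.N) (hρ : Fin' G σ1 ρ) :
    NB G σ1.pi z (G.t vl) ρ where
  ch := h.inv.ch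
  hN := hN
  chr := hρ.1
  nb := fun y a c w hw e => by
    let _ := G.ord
    obtain ⟨hac, k1, k2, k3⟩ := hw.p0 h.inv.ch hN
    have hcN : c ≤ G.N := hw.2.2.1.2.1.trans hN
    have hin : G.inn w := G.inn_of_t k2 hcN
    have hlt : w < y := (k3 _ (G.al_t w)).2
    have hup : G.up w = y := by
      rcases hρ.1.2.2 w hin with h1 | h1
      · exfalso
        have h2 := (G.up_lo hin).lt
        rw [← h1, e] at h2
        exact lt_asymm h2 hlt
      · rw [← h1, e]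
    obtain ⟨h1, h2⟩ := dr_decD h hN hw hup
    have h3 := hρ.2 w (Or.inr h1)
    rw [h2, e] at h3
    have h4 := (G.up_lo hin).lt
    rw [← h3] at h4
    exact lt_asymm h4 hlt

theorem dr_nb' (hW : WInv G σ z) (h : Dr1 G σ D ω z e vl σ1) (hN : G.t vl ≤ G.N) (hρ : Fin' G σ1 ρ) :
    NB G.mir σ1.pi z (G.t vl) ρ :=
  dr_nb (G := G.mir) (σ := σ.mir) (σ1 := σ1.mir) (winv_mir hW) (dr_mir hW h) hN ⟨hρ.1.mir25, hρ.2⟩

/-- **(P2) from `Dr1`**: the route of an area vertex stays in the area until it meets the phase. -/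
theorem area_meet (hW : WInv G σ z) (h : Dr1 G σ D ω z e vl σ1) (hN : G.t vl ≤ G.N) (hρ : Fin' G σ1 ρ) {w : V}
    (hw : Area G σ1.pi z (G.t vl) w) :
    ∃ v', Orb ρ w v' ∧ v' ∈ Bp G σ D ω z ∧ G.t v' ≤ G.t vl ∧
      ∀ w', Orb ρ w w' → G.t w' < G.t v' → Area G σ1.pi z (G.t vl) w' := by
  have hle : ∀ {c : ℕ}, c ≤ G.t vl → G.t (host G σ1.pi z c) ≤ G.t vl := by
    intro c hc
    have h1 := host_host h.inv.ch (u := z) hc hN
    have h2 := Orb.t_le h.inv.ch (host_orb25 h.inv.ch (host G σ1.pi z c) hN)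
    rw [h1, host_of_orb h.inv.ch (dr_orb hW h h.vlB.1 le_rfl) rfl hN] at h2
    exact h2
  rcases hw with ⟨y, a, c, hw⟩ | ⟨y, a, c, hw⟩
  · obtain ⟨v', n1, n2, n3, n4⟩ := (dr_nb hW h hN hρ).meet hw
    have n5 := n3.trans (hle hw.2.2.1.2.1)
    exact ⟨v', n1, dr_bp hW h hN n2 n5, n5, fun w' l1 l2 => Or.inl ⟨y, a, c, n4 w' l1 l2⟩⟩
  · obtain ⟨v', n1, n2, n3, n4⟩ := (dr_nb' hW h hN hρ).meet hw
    have n5 := n3.trans (hle hw.2.2.1.2.1)
    exact ⟨v', n1, dr_bp hW h hN n2 n5, n5, fun w' l1 l2 => Or.inr ⟨y, a, c, n4 w' l1 l2⟩⟩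

/-- The state with the phase drawn and the old declared vertices (law `σd`). -/
def dm (σ σ1 : St V) : St V := { σ1 with Dec := σ.Dec }

/-- A new declared vertex is declared by a new record. -/
theorem dr_new (hW : WInv G σ z) (h : Dr1 G σ D ω z e vl σ1) {u : V} (hu : u ∈ σ1.Dec)
    (hn : u ∉ σ.Dec) :
    (σ1.pi u = G.lo u ∧ ∃ a c, Ar G σ1.pi z (G.t vl) (G.up u) a c u) ∨
      (σ1.pi u = G.up u ∧ ∃ a c, Ar G.mir σ1.pi z (G.t vl) (G.lo u) a c u) := by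
  have key : ∀ (G : Bars V) (σ σ1 : St V), WInv G σ z → Dr1 G σ D ω z e vl σ1 → u ∈ σ1.Dec → u ∉ σ.Dec →
      (∃ R ∈ σ1.RD, DecBy G σ1 R u) → (σ1.pi u = G.lo u ∧ ∃ a c, Ar G σ1.pi z (G.t vl) (G.up u) a c u) := by
    rintro G σ σ1 hW h hu hn ⟨R, hR, hd⟩
    let _ := G.ord
    have huS : u ∉ σ1.S := (h.decN u hu hn).1
    have hcN : R.c ≤ G.N := (h.inv.recD R hR).cN
    have hin : G.inn u := G.inn_of_t hd.2.1 hcN
    refine ⟨hd.2.2.2.2, ?_⟩
    by_cases hold : R ∈ σ.RD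
    · exfalso
      have h1 := rc_to (hW.recD R hold)
      have h2 := h1.host_eq hW.ch h.inv.ch (fun v hv => h.piO v (Or.inl hv)) hd.2.1.le
      have h3 := h1.dec u hin hd.1.le hd.2.1 (by rw [← h2]; exact hd.2.2.1) hd.2.2.2.1
      rcases h3.1 with h4 | h4
      · exact huS ((h.S u).2 (Or.inl h4))
      · exact hn h4
    · obtain ⟨n1, n2, n3⟩ := h.newD R hR hold
      have h3 := hd.2.2.1
      rw [n1] at h3
      refine ⟨R.a, R.c, ?_, by rw [hd.2.2.2.1]; exact n2, by rw [hd.2.2.2.1]; exact n3, G.t u, hd.1.le,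
        hd.2.1.le, G.al_t u, h3, (G.up_up hin).lt⟩
      intro h4
      rw [host_of_orb h.inv.ch h4 rfl (hd.2.1.le.trans hcN)] at h3
      exact lt_irrefl _ h3
  have huS : u ∉ σ1.S := (h.decN u hu hn).1
  rcases h.inv.decl u hu huS with h1 | h1
  · exact Or.inl (key G σ σ1 hW h hu hn h1)
  · have h2 := key G.mir σ.mir σ1.mir (winv_mir hW) (dr_mir hW h) hu hn h1
    rw [G.mir_lo, G.mir_up] at h2
    exact Or.inr h2

/-- Outside of `σ1.S` the law of `dm` is the old law. -/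
theorem law_dm (h : Dr1 G σ D ω z e vl σ1) (ω' : V × Bool → Bool) {u : V} (hu : u ∉ σ1.S) :
    law G (dm σ σ1) ω' u = law G σ ω' u := by
  have huS : u ∉ σ.S := fun h1 => hu ((h.S u).2 (Or.inl h1))
  by_cases hD : u ∈ σ.Dec
  · unfold law
    rw [if_pos (show u ∈ σ.S ∪ σ.Dec from Or.inr hD), if_pos (show u ∈ (dm σ σ1).S ∪ (dm σ σ1).Dec from Or.inr hD)]
    exact h.piO u (Or.inr hD)
  · unfold law
    rw [if_neg (show u ∉ σ.S ∪ σ.Dec from fun h1 => h1.elim huS hD),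
      if_neg (show u ∉ (dm σ σ1).S ∪ (dm σ σ1).Dec from fun h1 => h1.elim hu hD)]

theorem dm_ch (hW : WInv G σ z) (h : Dr1 G σ D ω z e vl σ1) (ω' : V × Bool → Bool) :
    Ch G (law G (dm σ σ1) ω') := by
  refine ⟨?_, ?_, fun v hv => ?_⟩
  · unfold law
    rw [if_pos (show G.bot ∈ (dm σ σ1).S ∪ (dm σ σ1).Dec from Or.inl h.inv.bot_mem)]
    exact h.inv.ch.1
  · unfold law
    rw [if_pos (show G.top ∈ (dm σ σ1).S ∪ (dm σ σ1).Dec from Or.inl h.inv.top_mem)]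
    exact h.inv.ch.2.1
  · by_cases h1 : v ∈ σ1.S
    · unfold law
      rw [if_pos (show v ∈ (dm σ σ1).S ∪ (dm σ σ1).Dec from Or.inl h1)]
      exact h.inv.ch.2.2 v hv
    · rw [law_dm h ω' h1]
      exact (W.law_fin (wi_of hW) ω').1.2.2 v hv

/-- The new law differs from the old one only at new declared vertices. -/
theorem law_diff (_hW : WInv G σ z) (h : Dr1 G σ D ω z e vl σ1) (ω' : V × Bool → Bool) {u : V} (hu : u ∉ σ1.S)
    (hne : law G σ1 ω' u ≠ law G σ ω' u) : u ∈ σ1.Dec ∧ u ∉ σ.Dec := by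
  have huS : u ∉ σ.S := fun h1 => hu ((h.S u).2 (Or.inl h1))
  by_cases hD : u ∈ σ.Dec
  · exfalso
    apply hne
    unfold law
    rw [if_pos (show u ∈ σ.S ∪ σ.Dec from Or.inr hD), if_pos (show u ∈ σ1.S ∪ σ1.Dec from Or.inr (h.Dec hD))]
    exact h.piO u (Or.inr hD)
  · refine ⟨?_, hD⟩
    by_contra hD1
    apply hne
    unfold law
    rw [if_neg (show u ∉ σ.S ∪ σ.Dec from fun h1 => h1.elim huS hD),
      if_neg (show u ∉ σ1.S ∪ σ1.Dec from fun h1 => h1.elim hu hD1)]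

/-- Outside of the areas the new law is the old law. -/
theorem law_out (hW : WInv G σ z) (h : Dr1 G σ D ω z e vl σ1) (ω' : V × Bool → Bool) {u : V} (hu : u ∉ σ1.S)
    (hA : ¬ Area G σ1.pi z (G.t vl) u) : law G σ1 ω' u = law G σ ω' u := by
  by_contra hne
  obtain ⟨h1, h2⟩ := law_diff hW h ω' hu hne
  exact hA (h.decN u h1 h2).2

/-- **HEADS GET IN (pointwise) from `Dr1`**, laws `dm σ σ1` (phase drawn, old declared vertices) and `σ1`. -/
theorem heads (hW : WInv G σ z) (h : Dr1 G σ D ω z e vl σ1) (hN : G.t vl ≤ G.N) (ω' : V × Bool → Bool) {u0 v : V}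
    (hu : u0 ∉ σ1.S) (hv : Orb (law G (dm σ σ1) ω') u0 v) (hz : Orb σ1.pi z v) (htl : G.t v ≤ G.t vl)
    (hav : ∀ w, Orb (law G (dm σ σ1) ω') u0 w → G.t w < G.t v → w ∉ σ1.S) :
    ∃ v', Orb (law G σ1 ω') u0 v' ∧ Orb σ1.pi z v' ∧ G.t v' ≤ G.t v ∧
      ∀ w, Orb (law G σ1 ω') u0 w → G.t w < G.t v' →
        (Orb (law G (dm σ σ1) ω') u0 w ∧ G.t w < G.t v) ∨ Area G σ1.pi z (G.t vl) w := by
  have hf := W.law_fin (wi_of h.inv) ω'
  refine heads_abs (dr_nb hW h hN hf) (dr_nb' hW h hN hf) (dm_ch hW h ω') h.inv.bot_mem h.inv.top_mem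
    (fun v hv ht => dr_mem hW h hN hv ht) (fun u huS hne => ?_) hu hv hz htl hav
  have hne' : law G σ1 ω' u ≠ law G σ ω' u := by
    rw [← law_dm h ω' huS]
    exact hne
  obtain ⟨h1, h2⟩ := law_diff hW h ω' huS hne'
  have h3 : law G σ1 ω' u = σ1.pi u := by
    unfold law
    rw [if_pos (show u ∈ σ1.S ∪ σ1.Dec from Or.inr h1)]
  rw [h3]
  exact dr_new hW h h1 h2

/-- `RelH` from `Dr1`. -/
theorem dr_relH (hW : WInv G σ z) (h : Dr1 G σ D ω z e vl σ1) (hN : G.t vl ≤ G.N) :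
    Pool.Agent.W_a4f561_h33.RelH G (dm σ σ1) σ1 z (G.t vl) where
  bot := h.inv.bot_mem
  top := h.inv.top_mem
  ch := h.inv.ch
  S := rfl
  sub := h.Dec
  pi := fun _ _ => rfl
  new := fun u hu _ hn => (h.decN u hu hn).2
  ph := fun τ hτ => by
    have h1 := host_host h.inv.ch (u := z) hτ hN
    have h2 := Orb.t_le h.inv.ch (host_orb25 h.inv.ch (host G σ1.pi z τ) hN)
    rw [h1, host_of_orb h.inv.ch (dr_orb hW h h.vlB.1 le_rfl) rfl hN] at h2
    exact dr_mem hW h hN (host_orb25 h.inv.ch z (hτ.trans hN)) h2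
  tN := hN
  decD := fun _ _ _ _ hu hy => dr_decD h hN hu hy
  decU := fun _ _ _ _ hu hy => dr_decU hW h hN hu hy
  out := fun u hu hS => h.noS u hS hu

end dr

end Pool.Agent.W_a4f561_P25.D
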