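import Pool.Agent.W_a4f561_P25.Step
import Pool.Agent.W_a4f561_h1.Def

/-!
MP_a4f561_co, polylog: the draw step (2) of helper1's skeleton: existence of a state with `Dr1`, including (P1').
-/

set_option autoImplicit false

namespace Pool.Agent.W_a4f561_P25.W

open Pool.Agent.W_a4f561_h26
open Pool.Agent.W_a4f561_P73
open Pool.Agent.W_a4f561_P25
open Pool.Agent.W_a4f561_h1 (IsRc WInv Exi TD Bp Dr1 MS PS)

variable {V : Type} {G : Bars V} {σ : St V}

theorem rc_to {R : Rec V} (h : IsRc G σ R) : RecW G σ R :=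
  ⟨h.hst, h.b_le, h.ac, h.cN, h.y_b, h.y_t, h.ta, h.tc, h.ya, h.yc, h.dec⟩

theorem rc_of (hch : Ch G σ.pi) {R : Rec V} (h : RecW G σ R) : IsRc G σ R where
  q_mem := by
    have h1 := h.hostS 0 (Nat.zero_le _)
    rwa [host_self25 hch (Nat.zero_le _) (Nat.zero_le _)] at h1
  hst := h.hostS
  b_le := h.b_le
  ac := h.ac
  cN := h.cN
  y_b := h.y_b
  y_t := h.y_t
  ta := h.ta
  tc := h.tc
  ya := h.ya
  yc := h.yc
  dec := h.dec

theorem wi_of {c : V} (h : WInv G σ c) : Pool.Agent.W_a4f561_P25.WI G σ c :=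
  ⟨h.bot_mem, h.top_mem, h.ch, h.cl, fun R hR => rc_to (h.recD R hR), fun R hR => rc_to (h.recU R hR), h.decl⟩

theorem winv_of {c : V} (h : Pool.Agent.W_a4f561_P25.WI G σ c) (hl : σ.Lat = ∅) : WInv G σ c :=
  ⟨h.bot_mem, h.top_mem, h.ch, h.cl, hl, fun R hR => rc_of h.ch (h.recD R hR),
    fun R hR => rc_of h.ch.mir25 (h.recU R hR), h.decl⟩

/-! ### The notions of an area only see the phase -/

section congr

variable {π π' : V → V} {z : V} {tl : ℕ}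

theorem Tc.congr (hh : ∀ τ, τ ≤ tl → host G π' z τ = host G π z τ) {y : V} {τ : ℕ} :
    Tc G π' z tl y τ ↔ Tc G π z tl y τ := by
  unfold Tc
  constructor
  · rintro ⟨h1, h2, h3, h4⟩
    rw [hh τ h2] at h3 h4
    exact ⟨h1, h2, h3, h4⟩
  · rintro ⟨h1, h2, h3, h4⟩
    rw [← hh τ h2] at h3 h4
    exact ⟨h1, h2, h3, h4⟩

theorem orb_congr (hπ : Ch G π) (hπ' : Ch G π') (hN : tl ≤ G.N) (hh : ∀ τ, τ ≤ tl → host G π' z τ = host G π z τ)
    {u : V} (hu : Orb π z u) (ht : G.t u ≤ tl) : Orb π' z u := by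
  have h1 := host_of_orb hπ hu rfl (ht.trans hN)
  rw [← hh _ ht] at h1
  rw [← h1]
  exact host_orb25 hπ' z (ht.trans hN)

theorem Ar.congr (hπ : Ch G π) (hπ' : Ch G π') (hN : tl ≤ G.N)
    (hh : ∀ τ, τ ≤ tl → host G π' z τ = host G π z τ) {y : V} {a c : ℕ} {u : V} (h : Ar G π z tl y a c u) :
    Ar G π' z tl y a c u := by
  obtain ⟨_, _, k2, _⟩ := h.p0 hπ hN
  obtain ⟨h0, ha, hc, τ, h1, h2, h3, h4, h5⟩ := h
  refine ⟨fun h6 => h0 ?_, (Tc.congr hh).2 ha, (Tc.congr hh).2 hc, τ, h1, h2, h3, ?_, h5⟩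
  · exact orb_congr hπ' hπ hN (fun τ hτ => (hh τ hτ).symm) h6 (k2.le.trans hc.2.1)
  · rw [hh τ (h2.trans hc.2.1)]
    exact h4

theorem Area.congr (hπ : Ch G π) (hπ' : Ch G π') (hN : tl ≤ G.N)
    (hh : ∀ τ, τ ≤ tl → host G π' z τ = host G π z τ) {u : V} (h : Area G π z tl u) : Area G π' z tl u := by
  rcases h with ⟨y, a, c, h⟩ | ⟨y, a, c, h⟩
  · exact Or.inl ⟨y, a, c, Ar.congr hπ hπ' hN hh h⟩
  · exact Or.inr ⟨y, a, c, Ar.congr (G := G.mir) hπ.mir25 hπ'.mir25 hN hh h⟩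

end congr

/-! ### The last vertex of the phase -/

/-- The last vertex before the exit. -/
theorem exists_last {D : Set V} {ρ : V → V} (hρ : Ch G ρ) {z e : V} (hz : z ∈ D) (h : Exi D G ρ z e) :
    ∃ vl, PD G D ρ z vl ∧ ρ vl = e := by
  classical
  obtain ⟨⟨k, hk⟩, heD, hav⟩ := h
  have hex : ∃ k, ρ^[k] z = e := ⟨k, hk⟩
  have h0 : Nat.find hex ≠ 0 := by
    intro h1
    have h2 := Nat.find_spec hex
    rw [h1] at h2
    exact heD (h2 ▸ hz)
  obtain ⟨j, hj⟩ : ∃ j, Nat.find hex = j + 1 := ⟨Nat.find hex - 1, by omega⟩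
  have h1 : ρ^[j + 1] z = e := by
    rw [← hj]
    exact Nat.find_spec hex
  have h2 : ρ^[j] z ≠ e := Nat.find_min hex (by omega)
  have h3 : ρ (ρ^[j] z) = e := by
    rw [← h1, Function.iterate_succ_apply']
  have h4 : G.t (ρ^[j] z) < G.t e := by
    refine lt_of_le_of_ne ?_ fun h5 => h2 (G.t_inj h5)
    rw [← h3]
    exact hρ.t_le _
  exact ⟨ρ^[j] z, ⟨⟨j, rfl⟩, fun v hv ht => hav v hv (ht.trans_lt h4)⟩, h3⟩

/-- The path of the phase. -/
theorem bp_iff {D : Set V} {ρ : V → V} (hρ : Ch G ρ) {z e vl : V} (h : Exi D G ρ z e) (hl : PD G D ρ z vl)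
    (he : ρ vl = e) {v : V} : PD G D ρ z v ↔ v ∈ Bph G ρ z vl := by
  constructor
  · intro hv
    refine ⟨hv.1, ?_⟩
    rcases hv.1.cmp hl.1 with h1 | h1
    · exact Orb.t_le hρ h1
    · rcases Pool.Agent.W_a4f561_P25.W.orb_cases h1 with h2 | h2
      · rw [h2]
      · exfalso
        rw [he] at h2
        exact h.2.1 (hv.2 e h.1 (Orb.t_le hρ h2))
  · rintro ⟨h1, h2⟩
    exact ⟨h1, fun u hu ht => hl.2 u hu (ht.trans h2)⟩

/-! ### The window of the root -/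

/-- The phase is over before the end of the window of the root. -/
theorem end_lt {ρ : V → V} {z vl r : V} (h : DrH G σ ρ z vl) {S0 : Set V} (sub : S0 ⊆ σ.S)
    (cl0 : ∀ v ∈ S0, σ.pi v ∈ S0) {T0 T1 : ℕ} (hr0 : G.b r ≤ T0) (hT : T0 < T1)
    (hal : T1 ≤ G.N → ∀ w, G.al w T1 → w ∈ S0) (hr : Orb (dS G σ ρ z vl).pi r vl) : G.t vl ≤ T1 := by
  by_contra hcon
  rw [not_le] at hcon
  have hN : T1 ≤ G.N := hcon.le.trans h.tN
  have hch := dS_ch h
  set π := (dS G σ ρ z vl).pi with hπ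
  have h1 := host_al25 hch hN (hr0.trans hT.le)
  have h2 := hal hN _ h1
  have h3 := host_orb25 hch r hN
  have h4 : G.t (host G π r T1) ≤ G.t vl := by
    have := host_first (z := r) hch hr hcon.le hN
    exact this
  have h5 : Orb π (host G π r T1) vl := by
    rcases h3.cmp hr with h5 | h5
    · exact h5
    · have h6 : host G π r T1 = vl := G.t_inj (le_antisymm h4 (Orb.t_le hch h5))
      rw [h6]
      exact Orb.refl _ _
  have hcl : ∀ v ∈ S0, π v ∈ S0 := fun v hv => by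
    rw [hπ, dS_pi_old h (Or.inl (sub hv))]
    exact cl0 v hv
  have h6 : ∀ w, Orb π (host G π r T1) w → w ∈ S0 := by
    rintro w ⟨k, rfl⟩
    induction k with
    | zero => exact h2
    | succ k ih =>
      rw [Function.iterate_succ_apply']
      exact hcl _ ih
  exact h.av vl h.ze le_rfl (sub (h6 vl h5))

/-- **The draw step.** -/
theorem draw_of {D : Set V} {ω : V × Bool → Bool} {z e r : V} (hW : WInv G σ z) (hDS : ∀ v ∈ D, v ∉ σ.S) (hz : z ∈ D)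
    (hE : Exi D G (law G σ ω) z e) {S0 : Set V} (sub : S0 ⊆ σ.S) (cl0 : ∀ v ∈ S0, σ.pi v ∈ S0) {T0 T1 : ℕ}
    (hr0 : G.b r ≤ T0) (hr1 : T0 ≤ G.t r) (hT : T0 < T1) (hal : T1 ≤ G.N → ∀ w, G.al w T1 → w ∈ S0)
    (orb : Orb σ.pi r z) (pc : ∀ v, Orb σ.pi r v → G.t v < G.t z → v ∈ σ.S)
    (hroot : ∀ u ∈ σ.S, G.inn u → ∃ r', PD G σ.S σ.pi r' u ∧ ¬ (T0 < G.b r' ∧ G.t r' < T1)) :
    ∃ vl σ1, Dr1 G σ D ω z e vl σ1 := by
  have hI := wi_of hW
  have hf := law_fin hI ω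
  obtain ⟨vl, hl, he⟩ := exists_last hf.1 hz hE
  have hH : DrH G σ (law G σ ω) z vl := ⟨hI, hf, hl.1, fun v hv ht => hDS v (hl.2 v hv ht)⟩
  have hrz : Orb (dS G σ (law G σ ω) z vl).pi r z := dS_orb_old hH orb pc
  have hrl : Orb (dS G σ (law G σ ω) z vl).pi r vl := hrz.trans (dS_orb hH hl.1 le_rfl)
  have h1 := end_lt hH sub cl0 hr0 hT hal hrl
  have h0 : T0 ≤ G.t z := hr1.trans (Orb.t_le hI.ch orb)
  have hP : Phs G (dS G σ (law G σ ω) z vl) z (G.t vl) (law G σ ω vl) := by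
    refine dS_phs hH h0 h1 fun u hu hin => ?_
    rcases hu with hu | hu
    · obtain ⟨r', k1, k2⟩ := hroot u hu hin
      exact ⟨r', dS_orb_old hH k1.1 (fun v hv ht => k1.2 v hv ht.le), k2⟩
    · exact ⟨r, hrz.trans (dS_orb hH hu.1 hu.2), fun k => by omega⟩
  rw [he] at hP
  set σd := dS G σ (law G σ ω) z vl with hσd
  have hch1 := (sg_inv hP).ch
  have hN : G.t vl ≤ G.N := hP.hN
  have hh : ∀ τ, τ ≤ G.t vl → host G (sg G σd z (G.t vl)).pi z τ = host G σd.pi z τ := fun τ hτ =>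
    hP.host_eq hch1 (fun v hv => pi2_old (Or.inl hv)) hτ
  have hh' : ∀ τ, τ ≤ G.t vl → host G σd.pi z τ = host G (sg G σd z (G.t vl)).pi z τ := fun τ hτ => (hh τ hτ).symm
  have hbp : ∀ {v : V}, v ∈ Bp G σ D ω z ↔ v ∈ Bph G (law G σ ω) z vl := fun {v} => bp_iff hf.1 hE hl he
  have hAr : ∀ {u : V}, Area G (sg G σd z (G.t vl)).pi z (G.t vl) u ↔ Area G σd.pi z (G.t vl) u := fun {u} =>
    ⟨fun h => Area.congr hch1 hP.inv.ch hN hh' h, fun h => Area.congr hP.inv.ch hch1 hN hh h⟩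
  refine ⟨vl, sg G σd z (G.t vl), ?_⟩
  exact
  { vlB := hl
    vle := he
    inv := winv_of (sg_inv hP) hW.lat
    S := fun v => by
      rw [hbp]
      exact Iff.rfl
    piO := fun v hv => by
      show pi2 G σd z (G.t vl) v = σ.pi v
      rw [pi2_old (show v ∈ σd.S ∪ σd.Dec from hv.imp (fun h => Or.inl h) id)]
      exact dS_pi_old hH hv
    piB := fun v hv => by
      rw [hbp] at hv
      show pi2 G σd z (G.t vl) v = law G σ ω v
      rw [pi2_old (show v ∈ σd.S ∪ σd.Dec from Or.inl (Or.inr hv))]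
      exact dS_pi_B hv
    Dec := Set.subset_union_left
    decN := fun u hu hn => by
      have h2 := (drp hP).dec u hu hn
      exact ⟨fun h3 => hP.nou u h3 h2, hAr.2 h2⟩
    RD := Set.subset_union_left
    RU := Set.subset_union_left
    newD := fun R hR hn => by
      rcases hR with h2 | h2
      · exact absurd h2 hn
      · exact ⟨h2.1, (Tc.congr hh).2 h2.2.2.1, (Tc.congr hh).2 h2.2.2.2.1⟩
    newU := fun R hR hn => by
      rcases hR with h2 | h2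
      · exact absurd h2 hn
      · exact ⟨h2.1, (Tc.congr (G := G.mir) hh).2 h2.2.2.1, (Tc.congr (G := G.mir) hh).2 h2.2.2.2.1⟩
    exD := fun y a c hac ha hc => by
      obtain ⟨R, h2, h3, h4, h5, h6⟩ := (drp hP).exD y a c hac ((Tc.congr hh).1 ha) ((Tc.congr hh).1 hc)
      exact ⟨R, h2, h3, h4, h5.le, h6.ge⟩
    exU := fun y a c hac ha hc => by
      obtain ⟨R, h2, h3, h4, h5, h6⟩ := (drp hP).exU y a c hac ((Tc.congr (G := G.mir) hh).1 ha)
        ((Tc.congr (G := G.mir) hh).1 hc)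
      exact ⟨R, h2, h3, h4, h5.le, h6.ge⟩
    noS := fun u hu h2 => hP.nou u hu (hAr.1 h2) }

/-- **The draw step in the situation `PS` of helper1.** -/
theorem draw [Fintype V] [DecidableEq V] {rnk : V → ℕ} {N k0 : ℕ} {X : MS V} {S0 : Set V} {r z e : V}
    (hR : Pool.Agent.W_a4f561_P8.Rks G rnk) (hX : Pool.Agent.W_a4f561_h1.WI G rnk N k0 X z) (hP : PS G rnk X S0 r z)
    (hin : G.inn r) (hz : z ∉ X.σ.S) {ω : V × Bool → Bool}
    (hE : Exi (X.D (X.cell z)) G (law G X.σ ω) z e) : ∃ vl σ1, Dr1 G X.σ (X.D (X.cell z)) ω z e vl σ1 := by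
  obtain ⟨T0, T1, h1, h2, h3, h4, h5⟩ := hR.win r hin
  refine draw_of hX.inv (fun v hv => hv.1) ⟨hz, rfl⟩ hE hP.sub hP.cl0 h1 h2 (h2.trans_lt h3)
    (fun hN w hw => hP.low0 w (h4 hN w hw.1 hw.2)) hP.orb (fun v hv ht => (hP.pc v hv ht).1)
    (fun u hu hui => ?_)
  have h6 := hX.phs_rng u hu hui
  have h7 := hX.rtS _ h6.1 h6.2
  refine ⟨_, hX.root u hu hui, fun h8 => ?_⟩
  have h9 := h5 _ h7.2.1 h8.1 h8.2
  have h10 := hP.rts _ h6.1 h6.2
  omega

end Pool.Agent.W_a4f561_P25.W
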