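import Pool.Agent.W_a4f561_P25.Area
import Pool.Agent.W_a4f561_E.Trk34b

/-!
MP_a4f561_co, polylog (helper1's text, section 3 (b)): the records and the declared vertices of a phase. `σ.S` is closed and already
contains the piece; the phase is the route of `z ∈ σ.S` up to the time `tl`. The old invariant `Inv` is kept (records with `R.S = ∅`).
-/

set_option autoImplicit false

namespace Pool.Agent.W_a4f561_P25

open Pool.Agent.W_a4f561_h26
open Pool.Agent.W_a4f561_P73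
open Pool.Agent.W_a4f561_E.Pk25 hiding Rec

variable {V : Type} {G : Bars V} {σ : St V}

/-- Newly declared vertices (areas above the phase). -/
def NwD (G : Bars V) (σ : St V) (z : V) (tl : ℕ) (u : V) : Prop :=
  u ∉ σ.Dec ∧ ∃ a c, Ar G σ.pi z tl (G.up u) a c u

/-- The new records (areas above the phase). -/
def nwR (G : Bars V) (σ : St V) (z : V) (tl : ℕ) : Set (Rec V) :=
  {R | R.q = z ∧ R.S = ∅ ∧ Tc G σ.pi z tl R.y R.a ∧ Tc G σ.pi z tl R.y R.c ∧ R.a ≤ R.c}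

open Classical in
/-- The new choice function. -/
noncomputable def pi2 (G : Bars V) (σ : St V) (z : V) (tl : ℕ) (v : V) : V :=
  if v ∈ σ.S ∪ σ.Dec then σ.pi v else if NwD G σ z tl v then G.lo v else if NwD G.mir σ z tl v then G.up v
    else σ.pi v

/-- The new state. -/
noncomputable def sg (G : Bars V) (σ : St V) (z : V) (tl : ℕ) : St V where
  S := σ.S
  Dec := σ.Dec ∪ ({u | NwD G σ z tl u} ∪ {u | NwD G.mir σ z tl u})
  Lat := σ.Lat
  pi := pi2 G σ z tl
  RD := σ.RD ∪ nwR G σ z tl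
  RU := σ.RU ∪ nwR G.mir σ z tl

/-- The hypotheses of a phase: start `z` in `σ.S`, end time `tl`, no vertex of `σ.S` is in an area. -/
structure Phs (G : Bars V) (σ : St V) (z : V) (tl : ℕ) : Prop where
  inv : Inv G σ
  zS : z ∈ σ.S
  zL : z ∉ σ.Lat
  hN : tl ≤ G.N
  nou : ∀ u ∈ σ.S, ¬ Area G σ.pi z tl u

variable {z : V} {tl : ℕ}

theorem Phs.mir (h : Phs G σ z tl) : Phs G.mir σ.mir z tl where
  inv := h.inv.mir
  zS := h.zS
  zL := h.zL
  hN := h.hN
  nou := fun u hu h1 => h.nou u hu (Area.mir_iff.1 h1)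

theorem NwD.area {u : V} (h : NwD G σ z tl u) : Area G σ.pi z tl u := by
  obtain ⟨_, a, c, h1⟩ := h
  exact Or.inl ⟨_, a, c, h1⟩

theorem NwD.areaU {u : V} (h : NwD G.mir σ z tl u) : Area G σ.pi z tl u := by
  obtain ⟨_, a, c, h1⟩ := h
  exact Or.inr ⟨_, a, c, h1⟩

theorem newD_excl' (h : Phs G σ z tl) {u : V} (h1 : NwD G σ z tl u) (h2 : NwD G.mir σ z tl u) : False := by
  obtain ⟨_, a, c, h3⟩ := h1
  obtain ⟨_, a', c', h4⟩ := h2
  have h5 := ((h3.p0 h.inv.ch h.hN).2.2.2 _ (G.al_t u)).1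
  have h6 := ((h4.p0 (G := G.mir) h.inv.ch.mir25 h.hN).2.2.2 _ (G.al_t u)).1
  have h7 := (G.mir_lt).1 h6
  have h8 : G.r u < G.r (host G σ.pi z (G.t u)) := h7
  omega

theorem pi2_old {v : V} (h : v ∈ σ.S ∪ σ.Dec) : pi2 G σ z tl v = σ.pi v := by
  unfold pi2
  rw [if_pos h]

theorem pi2_D (h : Phs G σ z tl) {u : V} (hu : NwD G σ z tl u) : pi2 G σ z tl u = G.lo u := by
  have h1 : u ∉ σ.S ∪ σ.Dec := by
    rintro (h1 | h1)
    · exact h.nou u h1 hu.area
    · exact hu.1 h1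
  unfold pi2
  rw [if_neg h1, if_pos hu]

theorem pi2_U (h : Phs G σ z tl) {u : V} (hu : NwD G.mir σ z tl u) : pi2 G σ z tl u = G.up u := by
  have h1 : u ∉ σ.S ∪ σ.Dec := by
    rintro (h1 | h1)
    · exact h.nou u h1 hu.areaU
    · exact hu.1 h1
  unfold pi2
  rw [if_neg h1, if_neg (fun h2 => newD_excl' h h2 hu), if_pos hu]

theorem pi2_ch (h : Phs G σ z tl) : Ch G (pi2 G σ z tl) := by
  refine ⟨?_, ?_, fun v hv => ?_⟩
  · rw [pi2_old (Or.inl h.inv.bot_mem)]
    exact h.inv.ch.1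
  · rw [pi2_old (Or.inl h.inv.top_mem)]
    exact h.inv.ch.2.1
  · unfold pi2
    split_ifs
    · exact h.inv.ch.2.2 v hv
    · exact Or.inl rfl
    · exact Or.inr rfl
    · exact h.inv.ch.2.2 v hv

theorem sg_le : Le σ (sg G σ z tl) where
  S := subset_rfl
  Dec := Set.subset_union_left
  pi := fun v hv => pi2_old hv
  RD := Set.subset_union_left
  RU := Set.subset_union_left

/-- (P3): declared vertices in an area above the phase, next to the barrier, are declared down. -/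
theorem dec_old (h : Phs G σ z tl) {a c : ℕ} {u : V} (hu : Ar G σ.pi z tl (G.up u) a c u) (hD : u ∈ σ.Dec) :
    σ.pi u = G.lo u := by
  let _ := G.ord
  have huS : u ∉ σ.S := fun h1 => h.nou u h1 (Or.inl ⟨_, a, c, hu⟩)
  have hch := h.inv.ch
  obtain ⟨hac, k1, k2, k3⟩ := hu.p0 hch h.hN
  obtain ⟨hO, ha, hc, _⟩ := hu
  have hcN : c ≤ G.N := hc.2.1.trans h.hN
  have hin : G.inn u := G.inn_of_t k2 hcN
  rcases h.inv.decl u hD huS with ⟨R, hR, hd⟩ | ⟨R, hR, hd⟩
  · exact hd.2.2.2.2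
  · exfalso
    have hI := h.inv.recU R hR
    have hN : R.c ≤ G.N := hI.cN
    have hb' : G.b R.q ≤ G.t u := le_trans hI.b_le hd.1.le
    have hQ' : @Hp V G.ord G.b G.t (host G σ.pi R.q) (G.t u) R.c := host_hp hch hb' hN
    have hQ : @Hp V G.ord G.b G.t (host G σ.pi z) (G.t u) c :=
      host_hp hch (((G.bt z).trans ha.1.le).trans (k1.le.trans (G.bt u))) hcN
    have h2' := Pool.Agent.W_a4f561_R25.q_upc (G := G.mir) (σ := σ.mir) h.inv.mir
      (show IsRec G.mir σ.mir R from hI.mirst)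
    have h2'' : @Up V G.ord G.b G.t R.c R.y (host G σ.pi R.q R.c) := by
      have hlast : host G σ.pi R.q R.c ≠ G.bot := by
        intro e
        have h5 := (@Up.lt V G.mir.ord G.mir.b G.mir.t _ _ _ h2')
        have h6 : G.mir.r (host G σ.pi R.q R.c) < G.mir.r R.y := h5
        have h7 := (G.mir_lt).1 h6
        rw [e] at h7
        by_cases h8 : R.y = G.bot
        · rw [h8] at h7
          exact lt_irrefl _ h7
        · exact lt_asymm h7 (G.r_bot _ h8)
      have h5 := hI.tc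
      rw [mir_host] at h5
      exact G.up_of_lb hlast hN (hQ'.al _ hd.2.1.le le_rfl) h5
    have hxu := G.up_lo hin
    have huy := G.up_up hin
    have k4 : G.lo u = R.y := hd.2.2.2.1
    rw [k4] at hxu
    exact no_conflict33 G.t_inj hQ hQ' k2.le hd.2.1.le (hc.up hch h.hN) hc.2.2.2 h2'' hI.yc
      (k3 _ (G.al_t u)).1 ((G.mir_lt).1 hd.2.2.1) hxu huy

/-- A new record is a record of every state with these properties. -/
theorem rec_nw (h : Phs G σ z tl) {σ' : St V} (hch : Ch G σ'.pi) (hS : σ'.S = σ.S) (hD : σ.Dec ⊆ σ'.Dec)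
    (hpi : ∀ v ∈ σ.S ∪ σ.Dec, σ'.pi v = σ.pi v) (hNw : ∀ u, NwD G σ z tl u → u ∈ σ'.Dec ∧ σ'.pi u = G.lo u)
    {y : V} {a c : ℕ} (hac : a ≤ c) (ha : Tc G σ.pi z tl y a) (hc : Tc G σ.pi z tl y c) :
    IsRec G σ' ⟨z, y, a, c, ∅⟩ := by
  let _ := G.ord
  have hcN : c ≤ G.N := hc.2.1.trans h.hN
  have haN : a ≤ G.N := ha.2.1.trans h.hN
  have hI := h.inv
  have hh : ∀ τ, τ ≤ G.N → host G σ'.pi z τ = host G σ.pi z τ := fun τ hτ =>
    host_congr_cl hI.ch hch hI.cl (fun v hv => hpi v (Or.inl hv)) h.zS hτ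
  exact
  { q_mem := by
      rw [hS]
      exact h.zS
    q_new := Set.notMem_empty _
    S_sub := Set.empty_subset _
    S_cl := fun v hv => (Set.notMem_empty _ hv).elim
    b_le := (G.bt z).trans ha.1.le
    ac := hac
    cN := hcN
    y_b := (ha.up hI.ch h.hN).ay.1
    y_t := hc.y_t hI.ch h.hN
    hostS := fun _ _ _ => Set.notMem_empty _
    ta := by
      show G.ub (host G σ'.pi z a) a = y
      rw [hh a haN]
      exact ha.2.2.1
    tc := by
      show G.ub (host G σ'.pi z c) c = y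
      rw [hh c hcN]
      exact hc.2.2.1
    ya := by
      show G.t (host G σ'.pi z a) < G.t y
      rw [hh a haN]
      exact ha.2.2.2
    yc := by
      show G.t (host G σ'.pi z c) < G.t y
      rw [hh c hcN]
      exact hc.2.2.2
    reg := fun u hu => (Set.notMem_empty _ hu).elim
    dec := fun u h0 h1 h2 h3 h4 => by
      have h3' : G.r (host G σ'.pi z (G.t u)) < G.r u := h3
      have h1' : a ≤ G.t u := h1
      have h2' : G.t u < c := h2
      have h4' : G.up u = y := h4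
      rw [hh _ (h2'.le.trans hcN)] at h3'
      have hO : ¬ Orb σ.pi z u := by
        intro h5
        rw [host_of_orb hI.ch h5 rfl (h2'.le.trans hcN)] at h3'
        exact lt_irrefl _ h3'
      have hAr : Ar G σ.pi z tl (G.up u) a c u :=
        ⟨hO, by rw [h4']; exact ha, by rw [h4']; exact hc, G.t u, h1', h2'.le, G.al_t u, h3', (G.up_up h0).lt⟩
      by_cases h5 : u ∈ σ.Dec
      · exact ⟨Or.inr (hD h5), by rw [hpi u (Or.inr h5)]; exact dec_old h hAr h5⟩
      · have h6 := hNw u ⟨h5, a, c, hAr⟩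
        exact ⟨Or.inr h6.1, h6.2⟩
    att := fun h1 => (Set.notMem_empty _ h1).elim }

/-- A newly declared vertex is declared by a new record. -/
theorem decBy_nw (h : Phs G σ z tl) {σ' : St V} (hch : Ch G σ'.pi)
    (hpi : ∀ v ∈ σ.S, σ'.pi v = σ.pi v) {u : V} (hu : NwD G σ z tl u) (hp : σ'.pi u = G.lo u) :
    ∃ y a c, a ≤ c ∧ Tc G σ.pi z tl y a ∧ Tc G σ.pi z tl y c ∧ DecBy G σ' ⟨z, y, a, c, ∅⟩ u := by
  obtain ⟨_, a, c, h1⟩ := hu
  obtain ⟨hac, k1, k2, k3⟩ := h1.p0 h.inv.ch h.hN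
  have hcN : c ≤ G.N := h1.2.2.1.2.1.trans h.hN
  refine ⟨G.up u, a, c, hac.le, h1.2.1, h1.2.2.1, ?_, k2, ?_, rfl, hp⟩
  · exact k1.trans_le (G.bt u)
  · show G.r (host G σ'.pi z (G.t u)) < G.r u
    rw [host_congr_cl h.inv.ch hch h.inv.cl hpi h.zS (k2.le.trans hcN)]
    exact (k3 _ (G.al_t u)).1

theorem sg_inv (h : Phs G σ z tl) : Inv G (sg G σ z tl) where
  bot_mem := h.inv.bot_mem
  top_mem := h.inv.top_mem
  ch := pi2_ch h
  cl := fun v hv => by
    have hv' : v ∈ σ.S := hv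
    show pi2 G σ z tl v ∈ σ.S
    rw [pi2_old (Or.inl hv')]
    exact h.inv.cl v hv'
  lat_sub := h.inv.lat_sub
  lat_bot := h.inv.lat_bot
  lat_top := h.inv.lat_top
  recD := fun R hR => by
    rcases hR with h1 | h1
    · exact (h.inv.recD R h1).mono h.inv.ch (pi2_ch h) h.inv.cl subset_rfl Set.subset_union_left
        fun v hv => pi2_old hv
    · obtain ⟨q, y, a, c, S⟩ := R
      obtain ⟨e1, e2, e3, e4, e5⟩ := h1
      have e1' : q = z := e1
      have e2' : S = ∅ := e2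
      subst e1' e2'
      exact rec_nw h (σ' := sg G σ q tl) (pi2_ch h) rfl Set.subset_union_left (fun _ hv => pi2_old hv)
        (fun _ hu => ⟨Or.inr (Or.inl hu), pi2_D h hu⟩) e5 e3 e4
  recU := fun R hR => by
    rcases hR with h1 | h1
    · exact (h.inv.recU R h1).mono h.inv.ch.mir25 (pi2_ch h).mir25 h.inv.cl subset_rfl Set.subset_union_left
        fun v hv => pi2_old hv
    · obtain ⟨q, y, a, c, S⟩ := R
      obtain ⟨e1, e2, e3, e4, e5⟩ := h1
      have e1' : q = z := e1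
      have e2' : S = ∅ := e2
      subst e1' e2'
      exact rec_nw (G := G.mir) (σ := σ.mir) h.mir (σ' := sg G σ q tl) (pi2_ch h).mir25 rfl Set.subset_union_left
        (fun _ hv => pi2_old (σ := σ) hv)
        (fun u hu => ⟨Or.inr (Or.inr hu), by rw [G.mir_lo]; exact pi2_U h hu⟩) e5 e3 e4
  latD := fun R hR => by
    rcases hR with h1 | h1
    · exact h.inv.latD R h1
    · rw [h1.1]
      exact h.zL
  latU := fun R hR => by
    rcases hR with h1 | h1
    · exact h.inv.latU R h1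
    · rw [h1.1]
      exact h.zL
  decl := fun u h1 h2 => by
    rcases h1 with h1 | h1 | h1
    · rcases h.inv.decl u h1 h2 with ⟨R, hR, hd⟩ | ⟨R, hR, hd⟩
      · exact Or.inl ⟨R, Or.inl hR, hd.mono (h.inv.recD R hR) h.inv.ch (pi2_ch h) h.inv.cl
          (fun v hv => pi2_old (Or.inl hv)) (pi2_old (Or.inr h1))⟩
      · exact Or.inr ⟨R, Or.inl hR, hd.mono (h.inv.recU R hR) h.inv.ch.mir25 (pi2_ch h).mir25 h.inv.cl
          (fun v hv => pi2_old (Or.inl hv)) (pi2_old (Or.inr h1))⟩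
    · obtain ⟨y, a, c, k1, k2, k3, k4⟩ := decBy_nw h (σ' := sg G σ z tl) (pi2_ch h)
        (fun v hv => pi2_old (Or.inl hv)) h1 (pi2_D h h1)
      exact Or.inl ⟨_, Or.inr ⟨rfl, rfl, k2, k3, k1⟩, k4⟩
    · obtain ⟨y, a, c, k1, k2, k3, k4⟩ := decBy_nw (G := G.mir) (σ := σ.mir) h.mir (σ' := sg G σ z tl)
        (pi2_ch h).mir25 (fun v hv => pi2_old (σ := σ) (Or.inl hv)) h1
        (by rw [G.mir_lo]; exact pi2_U h h1)
      exact Or.inr ⟨⟨z, y, a, c, ∅⟩, Or.inr ⟨rfl, rfl, k2, k3, k1⟩, k4⟩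

/-- The mirror image of the new state. -/
theorem sg_mir (h : Phs G σ z tl) : sg G.mir σ.mir z tl = (sg G σ z tl).mir := by
  have e1 : pi2 G.mir σ.mir z tl = pi2 G σ z tl := by
    funext v
    by_cases h1 : v ∈ σ.S ∪ σ.Dec
    · rw [pi2_old h1, pi2_old (G := G.mir) (σ := σ.mir) h1]
      rfl
    · by_cases h2 : NwD G σ z tl v
      · rw [pi2_D h h2]
        have h3 : NwD G.mir.mir σ.mir z tl v := by
          rw [G.mir_mir]
          exact h2
        rw [pi2_U (G := G.mir) (σ := σ.mir) h.mir h3, G.mir_up]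
      · by_cases h3 : NwD G.mir σ z tl v
        · rw [pi2_U h h3]
          rw [pi2_D (G := G.mir) (σ := σ.mir) h.mir (show NwD G.mir σ.mir z tl v from h3), G.mir_lo]
        · have h4 : ¬ NwD G.mir.mir σ.mir z tl v := by
            rw [G.mir_mir]
            exact h2
          unfold pi2
          rw [if_neg h1, if_neg h2, if_neg h3, if_neg (show ¬ v ∈ σ.mir.S ∪ σ.mir.Dec from h1),
            if_neg (show ¬ NwD G.mir σ.mir z tl v from h3), if_neg h4]
          rfl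
  have e2 : (sg G.mir σ.mir z tl).Dec = (sg G σ z tl).Dec := by
    show σ.Dec ∪ ({u | NwD G.mir σ.mir z tl u} ∪ {u | NwD G.mir.mir σ.mir z tl u}) =
      σ.Dec ∪ ({u | NwD G σ z tl u} ∪ {u | NwD G.mir σ z tl u})
    rw [G.mir_mir, Set.union_comm {u | NwD G.mir σ.mir z tl u}]
    rfl
  have e3 : (sg G.mir σ.mir z tl).RU = (sg G σ z tl).RD := by
    show σ.RD ∪ nwR G.mir.mir σ.mir z tl = σ.RD ∪ nwR G σ z tl
    rw [G.mir_mir]
    rfl
  have e4 : sg G.mir σ.mir z tl = ⟨(sg G.mir σ.mir z tl).S, (sg G.mir σ.mir z tl).Dec, (sg G.mir σ.mir z tl).Lat,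
    pi2 G.mir σ.mir z tl, (sg G.mir σ.mir z tl).RD, (sg G.mir σ.mir z tl).RU⟩ := rfl
  rw [e4, e1, e2, e3]
  rfl

/-- Everything about the records of a phase. -/
structure DrP (G : Bars V) (σ : St V) (z : V) (tl : ℕ) (σ1 : St V) : Prop where
  le : Le σ σ1
  inv : Inv G σ1
  lat : σ1.Lat = σ.Lat
  S : σ1.S = σ.S
  dec : ∀ u ∈ σ1.Dec, u ∉ σ.Dec → Area G σ.pi z tl u
  exD : ∀ y a c, a ≤ c → Tc G σ.pi z tl y a → Tc G σ.pi z tl y c → ∃ R ∈ σ1.RD, R.q = z ∧ R.y = y ∧ R.a = a ∧ R.c = c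
  exU : ∀ y a c, a ≤ c → Tc G.mir σ.pi z tl y a → Tc G.mir σ.pi z tl y c →
    ∃ R ∈ σ1.RU, R.q = z ∧ R.y = y ∧ R.a = a ∧ R.c = c

theorem drp (h : Phs G σ z tl) : DrP G σ z tl (sg G σ z tl) where
  le := sg_le
  inv := sg_inv h
  lat := rfl
  S := rfl
  dec := fun u hu hn => by
    rcases hu with h1 | h1 | h1
    · exact absurd h1 hn
    · exact NwD.area h1
    · exact NwD.areaU h1
  exD := fun y a c hac ha hc => ⟨⟨z, y, a, c, ∅⟩, Or.inr ⟨rfl, rfl, ha, hc, hac⟩, rfl, rfl, rfl, rfl⟩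
  exU := fun y a c hac ha hc => ⟨⟨z, y, a, c, ∅⟩, Or.inr ⟨rfl, rfl, ha, hc, hac⟩, rfl, rfl, rfl, rfl⟩

theorem hd_of_inv (hI : Inv G σ) : HD G σ := Pool.Agent.W_a4f561_h26.T34b.inv_hD hI

theorem base_of_inv (hI : Inv G σ) : Base G σ := ⟨hI.bot_mem, hI.top_mem, hI.ch, hI.cl⟩

end Pool.Agent.W_a4f561_P25
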