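import Pool.Agent.W_a4f561_P25.CoupW
import Pool.Agent.W_a4f561_h33.Rel33

/-!
MP_a4f561_co, polylog: the state `sg` after the declarations of a phase satisfies helper33's `RelH`.
-/

set_option autoImplicit false

namespace Pool.Agent.W_a4f561_P25.W

open Pool.Agent.W_a4f561_h26
open Pool.Agent.W_a4f561_P73
open Pool.Agent.W_a4f561_P25

variable {V : Type} {G : Bars V} {σ : St V} {z : V} {tl : ℕ} {c0 : V}

/-- Area vertices next to the barrier are declared. -/
theorem decD_aux (h : Phs G σ z tl c0) {y : V} {a c : ℕ} {u : V} (hu : Ar G σ.pi z tl y a c u) (hy : G.up u = y) :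
    u ∈ (sg G σ z tl).Dec ∧ (sg G σ z tl).pi u = G.lo u := by
  have hu' : Ar G σ.pi z tl (G.up u) a c u := by rw [hy]; exact hu
  by_cases hD : u ∈ σ.Dec
  · refine ⟨Or.inl hD, ?_⟩
    show pi2 G σ z tl u = G.lo u
    rw [pi2_old (Or.inr hD)]
    exact dec_old h hu' hD
  · have h1 : NwD G σ z tl u := ⟨hD, a, c, hu'⟩
    exact ⟨Or.inr (Or.inl h1), pi2_D h h1⟩

theorem relH (h : Phs G σ z tl c0) : Pool.Agent.W_a4f561_h33.RelH G σ (sg G σ z tl) z tl where
  bot := h.inv.bot_mem
  top := h.inv.top_mem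
  ch := h.inv.ch
  S := rfl
  sub := Set.subset_union_left
  pi := fun v hv => pi2_old hv
  new := fun u hu _ hn => (drp h).dec u hu hn
  ph := h.hostS
  tN := h.hN
  decD := fun y a c u hu hy => decD_aux h hu hy
  decU := fun y a c u hu hy => by
    have h1 := decD_aux (G := G.mir) (σ := σ.mir) h.mir (show Ar G.mir σ.mir.pi z tl y a c u from hu)
      (by rw [G.mir_up]; exact hy)
    rw [sg_mir h, G.mir_lo] at h1
    exact h1
  out := fun u hu hS => h.nou u hS hu

end Pool.Agent.W_a4f561_P25.W
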