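import Pool.Agent.W_a4f561_P25.CoupD

/-!
MP_a4f561_co, polylog: mirror lemmas for helper1's structures.
-/

set_option autoImplicit false

namespace Pool.Agent.W_a4f561_P25.D

open Pool.Agent.W_a4f561_h26
open Pool.Agent.W_a4f561_P73
open Pool.Agent.W_a4f561_P25
open Pool.Agent.W_a4f561_h1 (IsRc WInv Exi TD Bp Dr1 MS PS)

variable {V : Type} [Fintype V] [DecidableEq V] {G : Bars V} {σ : St V} {z : V}

theorem td_mir (hW : WInv G σ z) {D E : Set V} {δ : ℝ} {N : ℕ} {ω : V × Bool → Bool} {e : V}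
    (h : TD G σ D E δ N ω z e) : TD G.mir σ.mir D E δ N ω z e where
  exi := by
    rw [law_mir hW]
    exact h.exi
  eE := h.eE
  nD := fun w hw => by
    rw [law_mir hW] at hw
    exact h.nU w hw
  nU := fun w hw => by
    rw [law_mir hW] at hw
    rw [G.mir_mir]
    exact h.nD w hw

omit [Fintype V] [DecidableEq V] in
theorem lens_mir {D : Set V} {s : ℕ} (h : LENS G σ D s) : LENS G.mir σ.mir D s := by
  intro τ hτ x u x' w π π' hπ hπ' a1 a2 a3 h1 h2 p1 p2
  have k1 : Fin' G σ π := ⟨by have := hπ.1.mir25; rwa [G.mir_mir] at this, hπ.2⟩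
  have k2 : Fin' G σ π' := ⟨by have := hπ'.1.mir25; rwa [G.mir_mir] at this, hπ'.2⟩
  exact h τ hτ x' u x w π' π k2 k1 a3 a2 a1 ((G.mir_lt).1 h2) ((G.mir_lt).1 h1) p2 p1

end Pool.Agent.W_a4f561_P25.D
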