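import Pool.Agent.W_a4f561_P25.Inst

/-!
MP_a4f561_co, polylog: drawing a phase. `σ` = state before the phase (`WI G σ z`, `z` = start), `ρ` = the chosen route function
(`law G σ ω`), `e` = last vertex of the phase. `dS` = state with the phase in `S`; `WI G dS (ρ e)` and `Phs G dS z (G.t e) (ρ e)`.
-/

set_option autoImplicit false

namespace Pool.Agent.W_a4f561_P25.W

open Pool.Agent.W_a4f561_h26
open Pool.Agent.W_a4f561_P73
open Pool.Agent.W_a4f561_P25

variable {V : Type} {G : Bars V} {σ : St V}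

/-- The vertices of the phase. -/
def Bph (G : Bars V) (ρ : V → V) (z e : V) : Set V := {v | Orb ρ z v ∧ G.t v ≤ G.t e}

open Classical in
/-- The state with the phase drawn. -/
noncomputable def dS (G : Bars V) (σ : St V) (ρ : V → V) (z e : V) : St V :=
  { σ with
    S := σ.S ∪ Bph G ρ z e
    pi := fun v => if v ∈ Bph G ρ z e then ρ v else σ.pi v }

/-- The hypotheses for drawing a phase. -/
structure DrH (G : Bars V) (σ : St V) (ρ : V → V) (z e : V) : Prop where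
  inv : WI G σ z
  fin : Fin' G σ ρ
  ze : Orb ρ z e
  av : ∀ v, Orb ρ z v → G.t v ≤ G.t e → v ∉ σ.S

variable {ρ : V → V} {z e : V}

theorem DrH.mir (h : DrH G σ ρ z e) : DrH G.mir σ.mir ρ z e where
  inv := h.inv.mir
  fin := ⟨h.fin.1.mir25, h.fin.2⟩
  ze := h.ze
  av := h.av

theorem DrH.inn (h : DrH G σ ρ z e) {v : V} (hv : Orb ρ z v) (ht : G.t v ≤ G.t e) : G.inn v :=
  ⟨fun e1 => h.av v hv ht (e1 ▸ h.inv.bot_mem), fun e1 => h.av v hv ht (e1 ▸ h.inv.top_mem)⟩

theorem DrH.tN (h : DrH G σ ρ z e) : G.t e ≤ G.N := by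
  have h1 := h.inn h.ze le_rfl
  exact (G.t_in e h1.1 h1.2).le

theorem DrH.z_mem (h : DrH G σ ρ z e) : z ∈ Bph G ρ z e := ⟨Orb.refl _ _, Orb.t_le h.fin.1 h.ze⟩

theorem dS_pi_B {v : V} (hv : v ∈ Bph G ρ z e) : (dS G σ ρ z e).pi v = ρ v := if_pos hv

theorem dS_pi_old (h : DrH G σ ρ z e) {v : V} (hv : v ∈ σ.S ∪ σ.Dec) : (dS G σ ρ z e).pi v = σ.pi v := by
  by_cases h1 : v ∈ Bph G ρ z e
  · rw [dS_pi_B h1, h.fin.2 v hv]
  · exact if_neg h1

theorem dS_pi_not {v : V} (hv : v ∉ Bph G ρ z e) : (dS G σ ρ z e).pi v = σ.pi v := if_neg hv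

theorem dS_ch (h : DrH G σ ρ z e) : Ch G (dS G σ ρ z e).pi := by
  refine ⟨?_, ?_, fun v hv => ?_⟩
  · rw [dS_pi_old h (Or.inl h.inv.bot_mem)]
    exact h.inv.ch.1
  · rw [dS_pi_old h (Or.inl h.inv.top_mem)]
    exact h.inv.ch.2.1
  · by_cases h1 : v ∈ Bph G ρ z e
    · rw [dS_pi_B h1]
      exact h.fin.1.2.2 v hv
    · rw [dS_pi_not h1]
      exact h.inv.ch.2.2 v hv

/-- The routes of `z` agree up to the exit. -/
theorem dS_orb (h : DrH G σ ρ z e) {v : V} (hv : Orb ρ z v) (ht : G.t v ≤ G.t e) : Orb (dS G σ ρ z e).pi z v := by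
  obtain ⟨k, rfl⟩ := hv
  induction k with
  | zero => exact Orb.refl _ _
  | succ k ih =>
    have h1 : G.t (ρ^[k] z) ≤ G.t (ρ^[k + 1] z) := h.fin.1.iter_mono z (Nat.le_succ k)
    have h2 := (ih (h1.trans ht)).step
    rw [dS_pi_B ⟨⟨k, rfl⟩, h1.trans ht⟩] at h2
    rw [Function.iterate_succ_apply']
    exact h2

theorem dS_host (h : DrH G σ ρ z e) {τ : ℕ} (hτ : τ ≤ G.t e) : host G (dS G σ ρ z e).pi z τ = host G ρ z τ :=
  host_congr25 h.fin.1 (dS_ch h) (hτ.trans h.tN) fun _ hv ht => dS_pi_B ⟨hv, ht.le.trans hτ⟩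

theorem ρ_host_mem (h : DrH G σ ρ z e) {τ : ℕ} (hτ : τ ≤ G.t e) : host G ρ z τ ∈ Bph G ρ z e := by
  refine ⟨host_orb25 h.fin.1 z (hτ.trans h.tN), ?_⟩
  have h1 := host_host h.fin.1 (u := z) hτ h.tN
  have h2 := Orb.t_le h.fin.1 (host_orb25 h.fin.1 (host G ρ z τ) h.tN)
  rw [h1, host_of_orb h.fin.1 h.ze rfl h.tN] at h2
  exact h2

/-- The invariant after drawing the phase. -/
theorem dS_inv (h : DrH G σ ρ z e) : WI G (dS G σ ρ z e) (ρ e) where
  bot_mem := Or.inl h.inv.bot_mem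
  top_mem := Or.inl h.inv.top_mem
  ch := dS_ch h
  cl := fun v hv => by
    rcases hv with hv | hv
    · rw [dS_pi_old h (Or.inl hv)]
      rcases h.inv.cl v hv with h1 | h1
      · exact Or.inl (Or.inl h1)
      · rw [h1]
        exact Or.inl (Or.inr h.z_mem)
    · rw [dS_pi_B hv]
      by_cases h1 : G.t (ρ v) ≤ G.t e
      · exact Or.inl (Or.inr ⟨hv.1.step, h1⟩)
      · right
        have h2 : v = e := by
          rcases hv.1.cmp h.ze with h3 | h3
          · rcases h3 with ⟨k, hk⟩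
            rcases k with _ | k
            · exact hk
            · exfalso
              rw [Function.iterate_succ_apply] at hk
              exact h1 (Orb.t_le h.fin.1 ⟨k, hk⟩)
          · exact G.t_inj (le_antisymm hv.2 (Orb.t_le h.fin.1 h3))
        rw [h2]
  recD := fun R hR => (h.inv.recD R hR).mono h.inv.ch (dS_ch h) Set.subset_union_left subset_rfl
    fun _ hv => dS_pi_old h hv
  recU := fun R hR => (h.inv.recU R hR).mono (G := G.mir) h.inv.ch.mir25 (dS_ch h).mir25 Set.subset_union_left subset_rfl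
    fun _ hv => dS_pi_old h hv
  decl := fun u h1 h2 => by
    have huS : u ∉ σ.S := fun h3 => h2 (Or.inl h3)
    rcases h.inv.decl u h1 huS with ⟨R, hR, hd⟩ | ⟨R, hR, hd⟩
    · exact Or.inl ⟨R, hR, DecBy.monoW hd (h.inv.recD R hR) h.inv.ch (dS_ch h)
        (fun v hv => dS_pi_old h (Or.inl hv)) (dS_pi_old h (Or.inr h1))⟩
    · exact Or.inr ⟨R, hR, DecBy.monoW (G := G.mir) hd (h.inv.recU R hR) h.inv.ch.mir25 (dS_ch h).mir25
        (fun v hv => dS_pi_old h (Or.inl hv)) (dS_pi_old h (Or.inr h1))⟩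

/-- (P1') for a state: no vertex of `S` is in an area, if the roots do not live inside `(T0, T1)`. -/
theorem nou_of_roots {π : V → V} (hπ : Ch G π) {S : Set V} {tl T0 T1 : ℕ} (hN : tl ≤ G.N) (h0 : T0 ≤ G.t z)
    (h1 : tl ≤ T1) (hr : ∀ u ∈ S, G.inn u → ∃ r, Orb π r u ∧ ¬ (T0 < G.b r ∧ G.t r < T1)) :
    ∀ u ∈ S, ¬ Area G π z tl u := by
  intro u hu hA
  obtain ⟨r, h2, h3⟩ := hr u hu (hA.inn hπ hN)
  exact hA.root hπ hN h2 h0 h1 h3

/-- The phase after drawing. -/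
theorem dS_phs (h : DrH G σ ρ z e) {T0 T1 : ℕ} (h0 : T0 ≤ G.t z) (h1 : G.t e ≤ T1)
    (hr : ∀ u ∈ σ.S ∪ Bph G ρ z e, G.inn u → ∃ r, Orb (dS G σ ρ z e).pi r u ∧ ¬ (T0 < G.b r ∧ G.t r < T1)) :
    Phs G (dS G σ ρ z e) z (G.t e) (ρ e) where
  inv := dS_inv h
  hN := h.tN
  hostS := fun τ hτ => by
    rw [dS_host h hτ]
    exact Or.inr (ρ_host_mem h hτ)
  last := by
    rw [dS_host h le_rfl, host_of_orb h.fin.1 h.ze rfl h.tN]
  nou := nou_of_roots (dS_ch h) h.tN h0 h1 hr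

theorem dS_le (h : DrH G σ ρ z e) : Le σ (dS G σ ρ z e) where
  S := Set.subset_union_left
  Dec := subset_rfl
  pi := fun _ hv => dS_pi_old h hv
  RD := subset_rfl
  RU := subset_rfl

/-- The routes of old vertices of `S` are kept, if they are in `S` before their end. -/
theorem dS_orb_old (h : DrH G σ ρ z e) {r u : V} (ho : Orb σ.pi r u)
    (hS : ∀ v, Orb σ.pi r v → G.t v < G.t u → v ∈ σ.S) : Orb (dS G σ ρ z e).pi r u := by
  obtain ⟨k, rfl⟩ := ho
  induction k with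
  | zero => exact Orb.refl _ _
  | succ k ih =>
    by_cases hin : G.inn (σ.pi^[k] r)
    · have h1 : G.t (σ.pi^[k] r) < G.t (σ.pi^[k + 1] r) := by
        rw [Function.iterate_succ_apply']
        exact h.inv.ch.t_lt hin
      have h2 := (ih (fun v hv ht => hS v hv (ht.trans h1))).step
      rw [dS_pi_old h (Or.inl (hS _ ⟨k, rfl⟩ h1))] at h2
      rw [Function.iterate_succ_apply']
      exact h2
    · have h1 : σ.pi^[k + 1] r = σ.pi^[k] r := by
        rw [Function.iterate_succ_apply']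
        by_cases hb : σ.pi^[k] r = G.bot
        · rw [hb]
          exact h.inv.ch.1
        · have ht : σ.pi^[k] r = G.top := by
            by_contra h4
            exact hin ⟨hb, h4⟩
          rw [ht]
          exact h.inv.ch.2.1
      rw [h1]
      exact ih (fun v hv ht => hS v hv (by rw [h1]; exact ht))

end Pool.Agent.W_a4f561_P25.W
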