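import Pool.Agent.W_a4f561_P25.Area

/-!
MP_a4f561_co, polylog: records in a state which is not closed (in the middle of a piece: one vertex of `S` may go to the present
start `c`). Hosts of records, P4, P5 for any choice function.
-/

set_option autoImplicit false

namespace Pool.Agent.W_a4f561_P25

open Pool.Agent.W_a4f561_h26
open Pool.Agent.W_a4f561_P73
open Pool.Agent.W_a4f561_E.Pk25 hiding Rec

variable {V : Type} {G : Bars V} {σ : St V}

/-- A valid record (pocket above the path of `R.q`), `R.S` is not used. -/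
structure RecW (G : Bars V) (σ : St V) (R : Rec V) : Prop where
  hostS : ∀ τ, τ ≤ R.c → host G σ.pi R.q τ ∈ σ.S
  b_le : G.b R.q ≤ R.a
  ac : R.a ≤ R.c
  cN : R.c ≤ G.N
  y_b : G.b R.y ≤ R.a
  y_t : R.c < G.t R.y
  ta : G.ub (host G σ.pi R.q R.a) R.a = R.y
  tc : G.ub (host G σ.pi R.q R.c) R.c = R.y
  ya : G.t (host G σ.pi R.q R.a) < G.t R.y
  yc : G.t (host G σ.pi R.q R.c) < G.t R.y
  dec : ∀ u, G.inn u → R.a ≤ G.t u → G.t u < R.c → G.r (host G σ.pi R.q (G.t u)) < G.r u → G.up u = R.y →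
    u ∈ σ.S ∪ σ.Dec ∧ σ.pi u = G.lo u

/-- The invariant of records; `c` is the only vertex outside of `S` to which a vertex of `S` may go. -/
structure WI (G : Bars V) (σ : St V) (c : V) : Prop where
  bot_mem : G.bot ∈ σ.S
  top_mem : G.top ∈ σ.S
  ch : Ch G σ.pi
  cl : ∀ v ∈ σ.S, σ.pi v ∈ σ.S ∨ σ.pi v = c
  recD : ∀ R ∈ σ.RD, RecW G σ R
  recU : ∀ R ∈ σ.RU, RecW G.mir σ R
  decl : ∀ u ∈ σ.Dec, u ∉ σ.S → (∃ R ∈ σ.RD, DecBy G σ R u) ∨ (∃ R ∈ σ.RU, DecBy G.mir σ R u)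

theorem RecW.mirst {R : Rec V} (h : RecW G σ R) : RecW G σ.mir R :=
  ⟨h.hostS, h.b_le, h.ac, h.cN, h.y_b, h.y_t, h.ta, h.tc, h.ya, h.yc, h.dec⟩

theorem WI.mir {c : V} (h : WI G σ c) : WI G.mir σ.mir c where
  bot_mem := h.top_mem
  top_mem := h.bot_mem
  ch := h.ch.mir25
  cl := h.cl
  recD := fun R hR => (h.recU R hR).mirst
  recU := fun R hR => by
    rw [G.mir_mir]
    exact (h.recD R hR).mirst
  decl := fun u h1 h2 => by
    rw [G.mir_mir]
    exact (h.decl u h1 h2).symm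

section rec

variable {R : Rec V}

theorem RecW.hp (hch : Ch G σ.pi) (hR : RecW G σ R) : @Hp V G.ord G.b G.t (host G σ.pi R.q) R.a R.c :=
  host_hp hch hR.b_le hR.cN

theorem RecW.upa (hch : Ch G σ.pi) (hR : RecW G σ R) : @Up V G.ord G.b G.t R.a (host G σ.pi R.q R.a) R.y := by
  refine G.up_of_ub ?_ (hR.ac.trans hR.cN) (host_al25 hch (hR.ac.trans hR.cN) hR.b_le) hR.ta
  intro e
  have h1 := hR.ta
  have h2 := hR.ya
  rw [e, Pool.Agent.W_a4f561_R25.ub_top] at h1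
  rw [e, ← h1] at h2
  exact lt_irrefl _ h2

theorem RecW.upc (hch : Ch G σ.pi) (hR : RecW G σ R) : @Up V G.ord G.b G.t R.c (host G σ.pi R.q R.c) R.y := by
  refine G.up_of_ub ?_ hR.cN (host_al25 hch hR.cN (hR.b_le.trans hR.ac)) hR.tc
  intro e
  have h1 := hR.tc
  have h2 := hR.yc
  rw [e, Pool.Agent.W_a4f561_R25.ub_top] at h1
  rw [e, ← h1] at h2
  exact lt_irrefl _ h2

theorem RecW.pk (hch : Ch G σ.pi) (hR : RecW G σ R) (h : R.a < R.c) :
    @Pool.Agent.W_a4f561_E.Pk25.Rec V G.ord G.b G.t (host G σ.pi R.q) R.y R.a R.c :=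
  let _ := G.ord
  ⟨h, hR.hp hch, hR.upa hch, hR.upc hch⟩

/-- The hosts of a record do not change when the state grows. -/
theorem RecW.host_eq {σ' : St V} (hch : Ch G σ.pi) (hch' : Ch G σ'.pi) (hpi : ∀ v ∈ σ.S, σ'.pi v = σ.pi v)
    (hR : RecW G σ R) {τ : ℕ} (hτ : τ ≤ R.c) : host G σ'.pi R.q τ = host G σ.pi R.q τ := by
  refine host_congr25 hch hch' (hτ.trans hR.cN) fun v hv ht => hpi v ?_
  have h1 := hR.hostS (G.t v) (ht.le.trans hτ)
  rw [host_of_orb hch hv rfl (ht.le.trans (hτ.trans hR.cN))] at h1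
  exact h1

/-- A record stays a record in a larger state. -/
theorem RecW.mono {σ' : St V} (h : RecW G σ R) (hch : Ch G σ.pi) (hch' : Ch G σ'.pi) (hS : σ.S ⊆ σ'.S)
    (hD : σ.Dec ⊆ σ'.Dec) (hpi : ∀ v ∈ σ.S ∪ σ.Dec, σ'.pi v = σ.pi v) : RecW G σ' R := by
  have hh : ∀ τ, τ ≤ R.c → host G σ'.pi R.q τ = host G σ.pi R.q τ := fun τ hτ =>
    h.host_eq hch hch' (fun v hv => hpi v (Or.inl hv)) hτ
  exact
  { hostS := fun τ h2 => by
      rw [hh τ h2]
      exact hS (h.hostS τ h2)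
    b_le := h.b_le
    ac := h.ac
    cN := h.cN
    y_b := h.y_b
    y_t := h.y_t
    ta := by
      rw [hh _ h.ac]
      exact h.ta
    tc := by
      rw [hh _ le_rfl]
      exact h.tc
    ya := by
      rw [hh _ h.ac]
      exact h.ya
    yc := by
      rw [hh _ le_rfl]
      exact h.yc
    dec := fun u h0 h1 h2 h3 h4 => by
      rw [hh _ h2.le] at h3
      obtain ⟨h5, h6⟩ := h.dec u h0 h1 h2 h3 h4
      refine ⟨?_, by rw [hpi u h5]; exact h6⟩
      rcases h5 with h5 | h5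
      · exact Or.inl (hS h5)
      · exact Or.inr (hD h5) }

theorem DecBy.monoW {σ' : St V} {u : V} (h : DecBy G σ R u) (hR : RecW G σ R) (hch : Ch G σ.pi)
    (hch' : Ch G σ'.pi) (hpi : ∀ v ∈ σ.S, σ'.pi v = σ.pi v) (hu : σ'.pi u = σ.pi u) : DecBy G σ' R u := by
  refine ⟨h.1, h.2.1, ?_, h.2.2.2.1, by rw [hu]; exact h.2.2.2.2⟩
  rw [hR.host_eq hch hch' hpi h.2.1.le]
  exact h.2.2.1

/-- A route (of `ρ` with the pi of the state on `S ∪ Dec`) which is inside the region of a record at one time at which it is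
outside of `S` is inside all the time before it is in `S`; `hS`: once in `S` it stays in `S`. -/
theorem RecW.in_all (hch : Ch G σ.pi) (hR : RecW G σ R) {ρ : V → V} (hρ : Ch G ρ) {z : V}
    (hS : ∀ v ∈ σ.S, Orb ρ z v → ρ v ∈ σ.S)
    (hd : ∀ v ∈ σ.Dec, v ∉ σ.S → ρ v = σ.pi v) {θ : ℕ} (hz : G.b z ≤ θ) (ha : R.a ≤ θ) (hc : θ ≤ R.c)
    (hθ : host G ρ z θ ∉ σ.S)
    (h1 : G.r (host G σ.pi R.q θ) < G.r (host G ρ z θ)) (h2 : G.r (host G ρ z θ) < G.r R.y) {τ : ℕ}
    (k1 : G.b z ≤ τ) (k2 : τ ≤ G.N) (k3 : host G ρ z τ ∉ σ.S) :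
    R.a < τ ∧ τ < R.c ∧ G.r (host G σ.pi R.q τ) < G.r (host G ρ z τ) ∧ G.r (host G ρ z τ) < G.r R.y := by
  let _ := G.ord
  have hal := host_al25 hρ (hc.trans hR.cN) hz
  have k4 : θ ≠ R.a := by
    rintro rfl
    exact (hR.upa hch).no _ hal h1 h2
  have hstay : ∀ s s', s ≤ s' → s' ≤ G.N → host G ρ z s ∈ σ.S → host G ρ z s' ∈ σ.S := by
    intro s s' l1
    induction s', l1 using Nat.le_induction with
    | base => exact fun _ l3 => l3
    | succ s' l1 ih =>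
      intro l2 l3
      have l4 := ih (by omega) l3
      rcases host_succ hρ (u := z) (τ := s') (by omega) with l5 | ⟨_, l5, _⟩
      · rw [l5.2]
        exact l4
      · rw [l5]
        exact hS _ l4 (host_orb25 hρ z (by omega))
  have hav : ∀ s, s ≤ max θ τ → host G ρ z s ∉ σ.S := by
    intro s l1 l2
    rcases le_total θ τ with l3 | l3
    · rw [max_eq_right l3] at l1
      exact k3 (hstay s τ l1 k2 l2)
    · rw [max_eq_left l3] at l1
      exact hθ (hstay s θ l1 (hc.trans hR.cN) l2)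
  have hmN : max θ τ ≤ G.N := max_le (hc.trans hR.cN) k2
  have hHp : Hp G.b G.t (host G ρ z) (G.b z) (max θ τ) := host_hp hρ le_rfl hmN
  obtain ⟨m1, m2, m3⟩ := inside_of G.t_inj (hR.pk hch (by omega)) hHp hz (le_max_left _ _) ha hc
    (fun s l1 l2 _ l3 l4 => hav s l2 (by rw [l4]; exact hR.hostS s l3))
    (fun s l1 l2 l3 l4 l5 l6 => by
      obtain ⟨n1, n2⟩ := step_bar hHp l1 l2 l5 l6
      set v := host G ρ z s with hv
      have hin : G.inn v := G.inn_of_t (τ := s + 1) (by omega) (by omega)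
      have hupv : G.up v = R.y := by
        have := G.ub_of_up n2
        rw [n1] at this
        exact this
      have n3 := hR.dec v hin (by omega) (by omega) (by rw [← n1]; exact l5.1) hupv
      have n4 := hav s l2.le
      rw [← hv] at n4
      have n5 := hd v (n3.1.resolve_left n4) n4
      rw [n3.2] at n5
      rcases host_succ hρ (u := z) (τ := s) (by omega) with n6 | ⟨_, n6, _⟩
      · rw [← hv] at n6
        omega
      · rw [l6, ← hv, n5] at n6
        exact lo_ne_up' hin (by rw [hupv, n6]))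
    ⟨h1, h2⟩
  have m4 := m3 τ k1 (le_max_right _ _)
  have m5 : τ ≤ max θ τ := le_max_right _ _
  exact ⟨by omega, by omega, m4.1, m4.2⟩

end rec

section forced

variable {c : V}

/-- A route which starts not before `c` does not leave `S`. -/
theorem WI.stayS (hI : WI G σ c) {ρ : V → V} (hρ : Fin' G σ ρ) {z : V} (hc : G.t c ≤ G.t z) :
    ∀ v ∈ σ.S, Orb ρ z v → ρ v ∈ σ.S := by
  intro v hv ho
  have h1 := Orb.t_le hρ.1 ho
  by_cases hin : G.inn v
  · rw [hρ.2 v (Or.inl hv)]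
    rcases hI.cl v hv with h2 | h2
    · exact h2
    · exfalso
      have h3 := hI.ch.t_lt hin
      rw [h2] at h3
      omega
  · by_cases hb : v = G.bot
    · rw [hb, hρ.1.1]
      exact hI.bot_mem
    · have ht : v = G.top := by
        by_contra h4
        exact hin ⟨hb, h4⟩
      rw [ht, hρ.1.2.1]
      exact hI.top_mem

/-- Forced barriers: the whole route (outside of `S`) is in the region of an old record with that barrier. -/
theorem fb_inW (hI : WI G σ c) {ρ : V → V} (hρ : Fin' G σ ρ) {z v : V} (hcz : G.t c ≤ G.t z) (hzv : Orb ρ z v)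
    (hvD : ρ v = G.lo v) (hlS : G.lo v ∉ σ.S) (hf : fb G σ v) :
    ∃ R ∈ σ.RD, R.y = G.flh v ∧ ∀ τ, G.b z ≤ τ → τ ≤ G.N → host G ρ z τ ∉ σ.S →
      R.a ≤ τ ∧ τ ≤ R.c ∧ G.r (host G σ.pi R.q τ) < G.r (host G ρ z τ) ∧ G.r (host G ρ z τ) < G.r R.y := by
  let _ := G.ord
  obtain ⟨u, f1, f2, f3, f4, f5, f6⟩ := hf
  have hch := hρ.1
  have hdec : ∃ R ∈ σ.RD, DecBy G σ R u := by
    rcases hI.decl u f1 f2 with hd | ⟨R, hR, hd⟩
    · exact hd
    · exfalso
      have hin : G.inn u := G.inn_of_t hd.2.1 (hI.recU R hR).cN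
      have h1 : σ.pi u = G.mir.lo u := hd.2.2.2.2
      rw [G.mir_lo, f3] at h1
      exact lo_ne_up' hin h1
  obtain ⟨R, hR, hd⟩ := hdec
  have hRr := hI.recD R hR
  have hin : G.inn u := G.inn_of_t hd.2.1 hRr.cN
  obtain ⟨t1, t2⟩ := Pool.Agent.W_a4f561_R25.fb_time (σ := σ) hin f4 f5
  have huN : G.t u ≤ G.N := hd.2.1.le.trans hRr.cN
  have hzv' : G.b z ≤ G.t u := ((G.bt z).trans (Orb.t_le hch hzv)).trans t1
  have hhost : host G ρ z (G.t u) ∉ σ.S ∧
      G.r (host G σ.pi R.q (G.t u)) < G.r (host G ρ z (G.t u)) ∧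
      G.r (host G ρ z (G.t u)) < G.r R.y := by
    have huy : G.r u < G.r R.y := by
      rw [← hd.2.2.2.1]
      exact (G.up_up hin).lt
    rcases t1.eq_or_lt with t3 | t3
    · have e : v = u := G.t_inj t3
      rw [host_of_orb hch hzv t3.symm huN, e]
      exact ⟨f2, hd.2.2.1, huy⟩
    · have e : host G ρ z (G.t u) = G.lo v := by
        rw [← hvD]
        refine Pool.Agent.W_a4f561_R25.host_btw hch hzv t3 ?_ huN
        rw [hvD]
        omega
      rw [e]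
      have k1 := G.up_lo hin
      rw [f4] at k1
      refine ⟨hlS, ?_, k1.lt.trans huy⟩
      have k2 : host G σ.pi R.q (G.t u) ≠ G.lo v := by
        intro k3
        have := hRr.hostS (G.t u) hd.2.1.le
        rw [k3] at this
        exact hlS this
      refine lt_of_le_of_ne (not_lt.1 fun k3 => ?_) (fun k3 => k2 (G.r_inj k3))
      exact k1.no _ (host_al25 hI.ch huN (hRr.b_le.trans hd.1.le)) k3 hd.2.2.1
  refine ⟨R, hR, by rw [← f6]; exact hd.2.2.2.1.symm, fun τ k1 k2 k3 => ?_⟩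
  obtain ⟨m1, m2, m3, m4⟩ := hRr.in_all hI.ch hch (hI.stayS hρ hcz)
    (fun v hv _ => hρ.2 v (Or.inr hv)) hzv' hd.1.le hd.2.1.le hhost.1 hhost.2.1 hhost.2.2 k1 k2 k3
  exact ⟨m1.le, m2.le, m3, m4⟩

/-- P5: one forced barrier for a route. -/
theorem fb_oneW (hI : WI G σ c) {ρ : V → V} (hρ : Fin' G σ ρ) {z v v' : V} (hcz : G.t c ≤ G.t z) (hzv : Orb ρ z v)
    (hvD : ρ v = G.lo v) (hlS : G.lo v ∉ σ.S) (hf : fb G σ v) (hzv' : Orb ρ z v')
    (hvD' : ρ v' = G.lo v') (hlS' : G.lo v' ∉ σ.S) (hf' : fb G σ v') : G.flh v = G.flh v' := by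
  have key : ∀ v v', Orb ρ z v → ρ v = G.lo v → G.lo v ∉ σ.S → fb G σ v → Orb ρ z v' → ρ v' = G.lo v' →
      G.lo v' ∉ σ.S → fb G σ v' → G.r (G.flh v) ≤ G.r (G.flh v') := by
    intro v v' hzv hvD hlS hf hzv' hvD' hlS' hf'
    let _ := G.ord
    obtain ⟨R', hR', hy', hin'⟩ := fb_inW hI hρ hcz hzv' hvD' hlS' hf'
    have hch := hρ.1
    obtain ⟨u, f1, f2, f3, f4, f5, f6⟩ := hf
    have hinu : G.inn u ∧ G.t u + 1 ≤ G.N := by
      rcases hI.decl u f1 f2 with ⟨R, hR, hd⟩ | ⟨R, hR, hd⟩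
      · have := (hI.recD R hR).cN
        exact ⟨G.inn_of_t hd.2.1 this, hd.2.1.trans_le this⟩
      · have := (hI.recU R hR).cN
        exact ⟨G.inn_of_t hd.2.1 this, hd.2.1.trans_le this⟩
    obtain ⟨t1, t2⟩ := Pool.Agent.W_a4f561_R25.fb_time (σ := σ) hinu.1 f4 f5
    have hN : G.tau1 v ≤ G.N := by rw [← f5]; exact hinu.2
    have e : host G ρ z (G.tau1 v) = G.lo v := by
      rw [← hvD]
      refine Pool.Agent.W_a4f561_R25.host_btw hch hzv (by omega) ?_ hN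
      rw [hvD]
      exact t2
    have hzv1 : G.b z ≤ G.tau1 v := ((G.bt z).trans (Orb.t_le hch hzv)).trans (by omega)
    obtain ⟨m1, m2, m3, m4⟩ := hin' (G.tau1 v) hzv1 hN (by rw [e]; exact hlS)
    rw [e] at m4
    have hne : G.lo v ≠ G.top := by
      intro h1
      rw [h1] at hlS
      exact hlS hI.top_mem
    have hR'r := hI.recD R' hR'
    have h5 := (G.ub_spec hne hN).2.2 R'.y ⟨hR'r.y_b.trans m1, m2.trans hR'r.y_t.le⟩ m4
    rw [← hy']
    exact h5
  exact G.r_inj (le_antisymm (key v v' hzv hvD hlS hf hzv' hvD' hlS' hf')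
    (key v' v hzv' hvD' hlS' hf' hzv hvD hlS hf))

/-- Declared vertices: the barrier outlives the other neighbour. -/
theorem WI.hd (hI : WI G σ c) : ∀ u ∈ σ.Dec, u ∉ σ.S → σ.pi u = G.lo u → G.t (G.lo u) < G.t (G.up u) := by
  intro u hu huS hp
  let _ := G.ord
  rcases hI.decl u hu huS with ⟨R, hR, hd⟩ | ⟨R, hR, hd⟩
  · have hRr := hI.recD R hR
    have hin : G.inn u := G.inn_of_t hd.2.1 hRr.cN
    have h1 := G.up_lo hin
    have h2 := (G.up_up hin).lt
    rw [hd.2.2.2.1] at h2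
    have h3 := lo_lt33 G.t_inj ((hRr.hp hI.ch).mono hd.1.le le_rfl) (hRr.upc hI.ch) hRr.yc hd.2.1.le hd.2.2.1 h2 h1
    rw [hd.2.2.2.1]
    exact h3
  · exfalso
    have hin : G.inn u := G.inn_of_t hd.2.1 (hI.recU R hR).cN
    have h1 : σ.pi u = G.mir.lo u := hd.2.2.2.2
    rw [G.mir_lo, hp] at h1
    exact lo_ne_up' hin h1

theorem WI.hD (hI : WI G σ c) : HD G σ := fun u h1 h2 h3 _ => hI.hd u h1 h2 h3

end forced

end Pool.Agent.W_a4f561_P25
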